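import Pool.Agent.Helper212.CohenE.Sets

/-! Predicates that are defined by one formula uniformly in all transitive sets. -/

namespace Pool.Agent.H30Z.Forc

open CohenE ZFSet

abbrev Tr (M : Set ZFSet.{0}) : Prop := ∀ x ∈ M, ∀ y ∈ x, y ∈ M

abbrev Pred := Set ZFSet.{0} → (ℕ → ZFSet.{0}) → Prop

/-- `Q` is uniformly definable over transitive classes. -/
def RD (Q : Pred) : Prop :=
  ∃ φ : Fml, ∀ M : Set ZFSet.{0}, Tr M → ∀ v : ℕ → M, Sat M v φ ↔ Q M (fun i => v i)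

theorem coe_scons {M : Set ZFSet.{0}} (a : M) (v : ℕ → M) :
    (fun i => ((scons a v i : M) : ZFSet.{0})) = scons (a : ZFSet.{0}) (fun i => v i) := by
  funext i
  cases i <;> rfl

theorem RD.congr {Q Q' : Pred} (h : RD Q)
    (h' : ∀ M, Tr M → ∀ v : ℕ → ZFSet.{0}, (∀ i, v i ∈ M) → (Q M v ↔ Q' M v)) : RD Q' := by
  obtain ⟨φ, hφ⟩ := h
  exact ⟨φ, fun M hM v => (hφ M hM v).trans (h' M hM _ fun i => (v i).2)⟩

theorem RD.mem (i j : ℕ) : RD fun _ v => v i ∈ v j := ⟨.mem i j, fun _ _ _ => Iff.rfl⟩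

theorem RD.eq (i j : ℕ) : RD fun _ v => v i = v j :=
  ⟨.eq i j, fun _ _ _ => Subtype.ext_iff⟩

theorem RD.not {Q : Pred} (h : RD Q) : RD fun M v => ¬ Q M v := by
  obtain ⟨φ, hφ⟩ := h
  exact ⟨.neg φ, fun M hM v => not_congr (hφ M hM v)⟩

theorem RD.and {Q Q' : Pred} (h : RD Q) (h' : RD Q') : RD fun M v => Q M v ∧ Q' M v := by
  obtain ⟨φ, hφ⟩ := h
  obtain ⟨ψ, hψ⟩ := h'
  exact ⟨.and φ ψ, fun M hM v => and_congr (hφ M hM v) (hψ M hM v)⟩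

theorem RD.ex {Q : Pred} (h : RD Q) : RD fun M v => ∃ y ∈ M, Q M (scons y v) := by
  obtain ⟨φ, hφ⟩ := h
  refine ⟨.ex φ, fun M hM v => ?_⟩
  simp only [Sat, hφ M hM, coe_scons]
  exact ⟨fun ⟨a, ha⟩ => ⟨a, a.2, ha⟩, fun ⟨a, h1, h2⟩ => ⟨⟨a, h1⟩, h2⟩⟩

theorem RD.or {Q Q' : Pred} (h : RD Q) (h' : RD Q') : RD fun M v => Q M v ∨ Q' M v :=
  (h.not.and h'.not).not.congr fun _ _ _ _ => by tauto

theorem RD.imp {Q Q' : Pred} (h : RD Q) (h' : RD Q') : RD fun M v => Q M v → Q' M v :=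
  (h.not.or h').congr fun _ _ _ _ => by tauto

theorem RD.iff {Q Q' : Pred} (h : RD Q) (h' : RD Q') : RD fun M v => Q M v ↔ Q' M v :=
  ((h.imp h').and (h'.imp h)).congr fun _ _ _ _ => by tauto

theorem RD.all {Q : Pred} (h : RD Q) : RD fun M v => ∀ y ∈ M, Q M (scons y v) :=
  h.not.ex.not.congr fun _ _ _ _ => by simp

theorem RD.bex (k : ℕ) {Q : Pred} (h : RD Q) : RD fun M v => ∃ y ∈ v k, Q M (scons y v) :=
  ((RD.mem 0 (k + 1)).and h).ex.congr fun M hM v hv =>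
    ⟨fun ⟨y, _, h1, h2⟩ => ⟨y, h1, h2⟩, fun ⟨y, h1, h2⟩ => ⟨y, hM _ (hv k) y h1, h1, h2⟩⟩

theorem RD.ball (k : ℕ) {Q : Pred} (h : RD Q) : RD fun M v => ∀ y ∈ v k, Q M (scons y v) :=
  (RD.bex k h.not).not.congr fun _ _ _ _ => by simp

theorem RD.ren {Q : Pred} (h : RD Q) (ρ : ℕ → ℕ) : RD fun M v => Q M (fun i => v (ρ i)) := by
  obtain ⟨φ, hφ⟩ := h
  exact ⟨CohenE.ren ρ φ, fun M hM v => by rw [sat_ren, hφ M hM]⟩

theorem RD.upair (k i j : ℕ) : RD fun _ v => v k = {v i, v j} :=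
  ((RD.mem i k).and ((RD.mem j k).and
    (RD.ball k ((RD.eq 0 (i + 1)).or (RD.eq 0 (j + 1)))))).congr fun _ _ v _ => by
    constructor
    · rintro ⟨h1, h2, h3⟩
      ext z
      rw [ZFSet.mem_pair]
      exact ⟨fun hz => h3 z hz, fun hz => by rcases hz with rfl | rfl <;> assumption⟩
    · intro h
      refine ⟨by rw [h]; simp, by rw [h]; simp, fun y hy => ?_⟩
      rw [h, ZFSet.mem_pair] at hy
      exact hy

theorem RD.isPair (k i j : ℕ) : RD fun _ v => v k = pair (v i) (v j) :=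
  ((RD.ball k ((RD.upair 0 (i + 1) (i + 1)).or (RD.upair 0 (i + 1) (j + 1)))).and
    ((RD.bex k (RD.upair 0 (i + 1) (i + 1))).and
      (RD.bex k (RD.upair 0 (i + 1) (j + 1))))).congr fun _ _ v _ => by
    simp only [scons, ZFSet.pair_eq_singleton]
    constructor
    · rintro ⟨h1, ⟨a, ha, rfl⟩, ⟨b, hb, rfl⟩⟩
      ext z
      rw [ZFSet.pair, ZFSet.mem_pair]
      exact ⟨fun hz => h1 z hz, fun hz => by rcases hz with rfl | rfl <;> assumption⟩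
    · intro h
      rw [h, ZFSet.pair]
      exact ⟨fun y hy => ZFSet.mem_pair.1 hy, ⟨_, by simp, rfl⟩, ⟨_, by simp, rfl⟩⟩

theorem RD.app (i j k : ℕ) : RD fun _ v => pair (v i) (v j) ∈ v k :=
  (RD.bex k (RD.isPair 0 (i + 1) (j + 1))).congr fun _ _ v _ =>
    ⟨fun ⟨_, h1, h2⟩ => by
      have h3 : _ = pair (v i) (v j) := h2
      rw [← h3]; exact h1, fun h => ⟨_, h, rfl⟩⟩

theorem RD.subset (i j : ℕ) : RD fun _ v => v i ⊆ v j :=
  (RD.ball i (RD.mem 0 (j + 1))).congr fun _ _ _ _ => Iff.rfl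

variable {M : Set ZFSet.{0}}

theorem sep_mem (hM : CTM M) {Q : Pred} (h : RD Q) {v : ℕ → ZFSet.{0}} (hv : ∀ i, v i ∈ M)
    {a : ZFSet.{0}} (ha : a ∈ M) : ∃ b ∈ M, ∀ z, z ∈ b ↔ z ∈ a ∧ Q M (scons z v) := by
  obtain ⟨φ, hφ⟩ := h
  obtain ⟨b, hb⟩ := hM.separation φ (fun i => ⟨v i, hv i⟩) ⟨a, ha⟩
  have key : ∀ z : M, (z : ZFSet.{0}) ∈ (b : ZFSet.{0}) ↔
      (z : ZFSet.{0}) ∈ a ∧ Q M (scons (z : ZFSet.{0}) v) := by
    intro z
    rw [hb, hφ M hM.trans, coe_scons]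
  refine ⟨b, b.2, fun z => ⟨fun hz => (key ⟨z, hM.trans _ b.2 z hz⟩).1 hz,
    fun hz => (key ⟨z, hM.trans _ ha z hz.1⟩).2 hz⟩⟩

theorem prod_mem (hM : CTM M) {a b : ZFSet.{0}} (ha : a ∈ M) (hb : b ∈ M) : prod a b ∈ M := by
  haveI : Fact (CTM M) := ⟨hM⟩
  obtain ⟨c, hc⟩ := exists_prod (M := M) ⟨a, ha⟩ ⟨b, hb⟩
  have : (c : ZFSet.{0}) = prod a b := by
    ext z
    rw [ZFSet.mem_prod]
    constructor
    · intro hz
      obtain ⟨x, y, h1, h2, h3⟩ := (hc ⟨z, hM.trans _ c.2 z hz⟩).1 hz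
      exact ⟨x, h1, y, h2, Subtype.ext_iff.1 h3⟩
    · rintro ⟨x, h1, y, h2, rfl⟩
      have hx := hM.trans _ ha x h1
      have hy := hM.trans _ hb y h2
      exact (hc ⟨_, pair_memM hx hy⟩).2 ⟨⟨x, hx⟩, ⟨y, hy⟩, h1, h2, rfl⟩
  rw [← this]; exact c.2

/-- relations defined by a formula -/
theorem rel_mem (hM : CTM M) {Q : Pred} (h : RD Q) {v : ℕ → ZFSet.{0}} (hv : ∀ i, v i ∈ M)
    {a b : ZFSet.{0}} (ha : a ∈ M) (hb : b ∈ M) : ∃ c ∈ M, c ⊆ prod a b ∧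
      ∀ x y, pair x y ∈ c ↔ x ∈ a ∧ y ∈ b ∧ Q M (scons x (scons y v)) := by
  -- variables: x = 0, y = 1, z = 2, a = 3, b = 4, v k = k + 5
  let ρ : ℕ → ℕ := fun i => match i with
    | 0 => 0
    | 1 => 1
    | n + 2 => n + 5
  have h1 := RD.bex 2 (RD.bex 2 ((RD.isPair 2 0 1).and (h.ren ρ)))
  obtain ⟨c, hc, hc'⟩ := sep_mem hM h1 (v := scons a (scons b v)) (by
    intro i
    rcases i with _ | _ | i
    · exact ha
    · exact hb
    · exact hv i) (prod_mem hM ha hb)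
  have e : ∀ x y z, (fun i => scons x (scons y (scons z (scons a (scons b v)))) (ρ i)) =
      scons x (scons y v) := by
    intro x y z
    funext i
    rcases i with _ | _ | i <;> rfl
  refine ⟨c, hc, fun z hz => ((hc' z).1 hz).1, fun x y => ?_⟩
  rw [hc', pair_mem_prod]
  constructor
  · rintro ⟨⟨h1, h2⟩, y', -, x', -, h3, h4⟩
    have h5 : pair x y = pair x' y' := h3
    rw [pair_inj] at h5
    obtain ⟨rfl, rfl⟩ := h5
    rw [e] at h4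
    exact ⟨h1, h2, h4⟩
  · rintro ⟨h1, h2, h3⟩
    refine ⟨⟨h1, h2⟩, y, h2, x, h1, rfl, ?_⟩
    rw [e]; exact h3

/-- assignment given by a list of sets -/
def zl (l : List ZFSet.{0}) (i : ℕ) : ZFSet.{0} := l.getD i ∅

theorem zl_mem (hM : CTM M) {l : List ZFSet.{0}} (hl : ∀ x ∈ l, x ∈ M) (i : ℕ) : zl l i ∈ M := by
  haveI : Fact (CTM M) := ⟨hM⟩
  unfold zl
  by_cases h : i < l.length
  · rw [List.getD_eq_getElem _ _ h]
    exact hl _ (List.getElem_mem h)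
  · rw [List.getD_eq_default _ _ (by omega)]
    exact empty_memM

end Pool.Agent.H30Z.Forc
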