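import Pool.Agent.H30Z.Forc.ZFC
import Pool.Agent.H30Z.Forc.RD

/-! The ground model: a countable transitive model elementarily equivalent (with parameters) to
the universe, contained in the extension and with the same ordinals. -/

namespace Pool.Agent.H30Z.Forc

open CohenE ZFSet

variable {P : Type} [Preorder P] [OrderTop P] {N : Set (Nm P)} {G : Set P}

/-- check names -/
def io (P : Type) [Preorder P] [OrderTop P] : Nm Unit → Nm P
  | .mk α A _ => .mk α (fun i => io P (A i)) (fun _ => ⊤)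

def fg : Nm P → Nm Unit
  | .mk α A _ => .mk α (fun i => fg (A i)) (fun _ => ())

theorem fg_io (σ : Nm Unit) : fg (io P σ) = σ := by
  induction σ with
  | mk α A B ih => simp only [io, fg, ih]

/-- the set denoted by a name for the trivial forcing -/
noncomputable def toZF (σ : Nm Unit) : ZFSet.{0} := val Set.univ Set.univ σ

theorem exists_toZF (x : ZFSet.{0}) : ∃ σ, toZF σ = x := by
  induction x using ZFSet.inductionOn with
  | _ x ih =>
  choose f hf using ih
  refine ⟨.mk (Shrink.{0} x) (fun i => f ((equivShrink x).symm i).1 ((equivShrink x).symm i).2)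
    (fun _ => ()), ?_⟩
  ext z
  rw [toZF, mem_val]
  constructor
  · rintro ⟨i, -, -, rfl⟩
    have := hf ((equivShrink x).symm i).1 ((equivShrink x).symm i).2
    change toZF (f _ _) ∈ x
    rw [this]
    exact ((equivShrink x).symm i).2
  · intro hz
    refine ⟨equivShrink x ⟨z, hz⟩, trivial, trivial, ?_⟩
    change z = toZF (f _ _)
    rw [hf]
    simp

noncomputable def chk (x : ZFSet.{0}) : Nm Unit := (exists_toZF x).choose

theorem toZF_chk (x : ZFSet.{0}) : toZF (chk x) = x := (exists_toZF x).choose_spec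

theorem filt_univ : IsFilt (Set.univ : Set Unit) :=
  ⟨trivial, fun _ _ _ _ => trivial, fun p _ _ _ => ⟨p, trivial, le_rfl, le_rfl⟩⟩

theorem core_univ : Core (Set.univ : Set (Nm Unit)) Set.univ :=
  Core.of_meets filt_univ fun x l _ => by
    obtain ⟨q, -, τ, h⟩ := coreReq_dense x l ()
    exact ⟨q, trivial, τ, trivial, h⟩

theorem ext_univ : Ext (Set.univ : Set (Nm Unit)) Set.univ = Set.univ :=
  Set.eq_univ_of_forall fun x => ⟨chk x, trivial, toZF_chk x⟩

/-- ground names -/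
def Gr (N : Set (Nm P)) : Set (Nm Unit) := io P ⁻¹' N

/-- the collapse of ground names -/
noncomputable def pi (N : Set (Nm P)) (σ : Nm Unit) : ZFSet.{0} := val (Gr N) Set.univ σ

/-- the ground model -/
def Gnd (N : Set (Nm P)) : Set ZFSet.{0} := Ext (Gr N) Set.univ

theorem val_io (hG : IsFilt G) (σ : Nm Unit) : val N G (io P σ) = pi N σ := by
  induction σ with
  | mk α A B ih =>
    ext z
    rw [pi, mem_val, mem_val]
    constructor
    · rintro ⟨i, h1, -, rfl⟩
      exact ⟨i, h1, trivial, ih i⟩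
    · rintro ⟨i, h1, -, rfl⟩
      exact ⟨i, h1, hG.top, (ih i).symm⟩

noncomputable def nmrk : Nm P → Ordinal.{0}
  | .mk _ A _ => ⨆ i, Order.succ (nmrk (A i))

omit [Preorder P] [OrderTop P] in
theorem nmrk_lt (τ : Nm P) (i : τ.T) : nmrk (τ.A i) < nmrk τ := by
  cases τ with
  | mk α A B =>
    exact Order.succ_le_iff.1 (Ordinal.le_iSup (fun i => Order.succ (nmrk (A i))) i)

/-- A ground model together with a generic extension. -/
structure Pair (N : Set (Nm P)) (G : Set P) : Prop where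
  ctble : N.Countable
  core : Core N G
  ground : Core (Gr N) Set.univ
  rk : ∀ τ ∈ N, chk (nmrk τ).toZFSet ∈ Gr N

def liftReq (P : Type) [Preorder P] [OrderTop P] (R : Req Unit) : Req P :=
  fun l _ τ => ∃ τ', τ = io P τ' ∧ R (l.map fg) () τ'

theorem liftReq_dense {R : Req Unit} (h : R.Dense) : (liftReq P R).Dense := by
  intro l p
  obtain ⟨q, -, τ, hτ⟩ := h (l.map fg) ()
  exact ⟨p, le_rfl, _, τ, rfl, hτ⟩

theorem Meets.of_lift {R : Req Unit} (h : Meets N G (liftReq P R)) : Meets (Gr N) Set.univ R := by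
  intro l hl
  obtain ⟨q, -, τ, hτ, τ', rfl, h'⟩ := h (l.map (io P)) (by
    intro x hx
    obtain ⟨y, hy, rfl⟩ := List.mem_map.1 hx
    exact hl y hy)
  refine ⟨(), trivial, τ', hτ, ?_⟩
  have : (l.map (io P)).map fg = l := by
    rw [List.map_map]
    conv_rhs => rw [← List.map_id l]
    exact List.map_congr_left fun x _ => fg_io x
  rwa [this] at h'

theorem exists_pair (𝓡 : Set (Req P)) (hc : 𝓡.Countable) (hR : ∀ R ∈ 𝓡, R.Dense) :
    ∃ (N : Set (Nm P)) (G : Set P), Pair N G ∧ ∀ R ∈ 𝓡, Meets N G R := by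
  let R0 : Req P := clos fun l => io P (chk (nmrk (lv l 0)).toZFSet)
  obtain ⟨N, G, h1, h2, h3⟩ := exists_generic
    (insert R0 (𝓡 ∪ (Set.range (coreReq P) ∪ Set.range fun x => liftReq P (coreReq Unit x))))
    ((hc.union ((Set.countable_range _).union (Set.countable_range _))).insert _) (by
      rintro R (rfl | hR' | ⟨x, rfl⟩ | ⟨x, rfl⟩)
      · exact clos_dense _
      · exact hR R hR'
      · exact coreReq_dense x
      · exact liftReq_dense (coreReq_dense x))
  refine ⟨N, G, ⟨h1, Core.of_meets h2 fun x => h3 _ (Or.inr (Or.inr (Or.inl ⟨x, rfl⟩))),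
    Core.of_meets filt_univ fun x => (h3 _ (Or.inr (Or.inr (Or.inr ⟨x, rfl⟩)))).of_lift, ?_⟩,
    fun R hR => h3 R (Or.inr (Or.inl hR))⟩
  intro τ hτ
  exact (h3 R0 (Or.inl rfl)).clos [τ] (by simpa using hτ)

theorem Pair.ctm_ext (h : Pair N G) : CTM (Ext N G) := h.core.ctm h.ctble

theorem Pair.ctm_gnd (h : Pair N G) : CTM (Gnd N) :=
  h.ground.ctm (h.ctble.preimage_of_injOn (Function.LeftInverse.injective fg_io).injOn)

theorem Pair.subset (h : Pair N G) : Gnd N ⊆ Ext N G := by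
  rintro _ ⟨σ, hσ, rfl⟩
  exact ⟨_, hσ, val_io h.core.filt σ⟩

/-- **Elementarity.** -/
theorem Pair.transfer (h : Pair N G) {Q : Pred} (hQ : RD Q) {v : ℕ → Nm Unit}
    (hv : ∀ i, v i ∈ Gr N) :
    Q (Gnd N) (fun i => pi N (v i)) ↔ Q Set.univ (fun i => toZF (v i)) := by
  obtain ⟨φ, hφ⟩ := hQ
  have h1 := h.ground.truth φ v (fun i => ⟨pi N (v i), v i, hv i, rfl⟩) hv (fun _ => rfl)
  have h2 := core_univ.truth φ v (fun i => ⟨toZF (v i), v i, trivial, rfl⟩)
    (fun _ => trivial) (fun _ => rfl)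
  have h3 := hφ (Gnd N) ext_trans (fun i => ⟨pi N (v i), v i, hv i, rfl⟩)
  have h4 := hφ (Ext Set.univ Set.univ) ext_trans (fun i => ⟨toZF (v i), v i, trivial, rfl⟩)
  rw [← h3]
  refine (h1.trans h2.symm).trans (h4.trans ?_)
  change Q (Ext Set.univ Set.univ) (fun i => toZF (v i)) ↔ _
  rw [ext_univ]

theorem Pair.transfer_list (h : Pair N G) {Q : Pred} (hQ : RD Q) {l : List (Nm Unit)}
    (hl : ∀ x ∈ l, x ∈ Gr N) :
    Q (Gnd N) (fun i => pi N (lv l i)) ↔ Q Set.univ (fun i => toZF (lv l i)) :=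
  h.transfer hQ (h.ground.lv_mem hl)

theorem Pair.pi_mem_iff (h : Pair N G) {a b : Nm Unit} (ha : a ∈ Gr N) (hb : b ∈ Gr N) :
    pi N a ∈ pi N b ↔ toZF a ∈ toZF b :=
  h.transfer_list (RD.mem 0 1) (l := [a, b]) (by simp [ha, hb])

theorem Pair.pi_eq_iff (h : Pair N G) {a b : Nm Unit} (ha : a ∈ Gr N) (hb : b ∈ Gr N) :
    pi N a = pi N b ↔ toZF a = toZF b :=
  h.transfer_list (RD.eq 0 1) (l := [a, b]) (by simp [ha, hb])

theorem RD.isOrdinal : RD fun _ v => (v 0).IsOrdinal :=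
  ((RD.ball 0 (RD.subset 0 1)).and
    (RD.ball 0 (RD.ball 0 (RD.subset 0 1)))).congr fun _ _ _ _ => by
    rw [isOrdinal_iff_forall_mem_isTransitive]; rfl

theorem Pair.pi_ordinal (h : Pair N G) {a : Nm Unit} (ha : a ∈ Gr N) :
    (pi N a).IsOrdinal ↔ (toZF a).IsOrdinal :=
  h.transfer_list RD.isOrdinal (l := [a]) (by simp [ha])

theorem Pair.rank_le (h : Pair N G) (τ : Nm P) : τ ∈ N →
    (val N G τ).rank ≤ (pi N (chk (nmrk τ).toZFSet)).rank := by
  induction τ using Nm.ind with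
  | _ τ ih =>
  intro hτ
  rw [rank_le_iff]
  intro y hy
  obtain ⟨i, h1, -, rfl⟩ := mem_val.1 hy
  refine (ih i h1).trans_lt (rank_lt_of_mem ?_)
  rw [h.pi_mem_iff (h.rk _ h1) (h.rk _ hτ), toZF_chk, toZF_chk, Ordinal.toZFSet_mem_toZFSet_iff]
  exact nmrk_lt τ i

theorem Pair.same_ord (h : Pair N G) (x : ZFSet.{0}) (hx : x.IsOrdinal) :
    x ∈ Gnd N ↔ x ∈ Ext N G := by
  refine ⟨fun hh => h.subset hh, ?_⟩
  rintro ⟨τ, hτ, rfl⟩
  have h1 : (pi N (chk (nmrk τ).toZFSet)).IsOrdinal := by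
    rw [h.pi_ordinal (h.rk τ hτ), toZF_chk]
    exact ZFSet.isOrdinal_toZFSet _
  have h2 := (hx.rank_le_iff_subset h1).1 (h.rank_le τ hτ)
  have h3 : pi N (chk (nmrk τ).toZFSet) ∈ Gnd N := ⟨_, h.rk τ hτ, rfl⟩
  rcases (hx.subset_iff_eq_or_mem h1).1 h2 with h4 | h4
  · rw [h4]; exact h3
  · exact ext_trans _ h3 _ h4

end Pool.Agent.H30Z.Forc
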