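import Mathlib

/-! Combinatorics of Cohen forcing and of countably closed forcing. -/

namespace Pool.Agent.H30Z.Forc

/-- a covering property that implies that `ω₁` is preserved -/
def Cov (P : Type) [Preorder P] : Prop :=
  ∀ (X : Type) (D : ℕ → X → Set P), (∀ n x p q, p ∈ D n x → q ≤ p → q ∈ D n x) → ∀ p : P,
    ∃ q, q ≤ p ∧ ∃ C : Set X, C.Countable ∧
      ∀ n r, r ≤ q → (∃ x, r ∈ D n x) → ∃ x ∈ C, ∃ r', r' ≤ r ∧ r' ∈ D n x

def SigmaClosed (P : Type) [Preorder P] : Prop :=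
  ∀ s : ℕ → P, Antitone s → ∃ q, ∀ n, q ≤ s n

theorem SigmaClosed.baire {P : Type} [Preorder P] (h : SigmaClosed P) (E : ℕ → Set P)
    (hE : ∀ n p, ∃ q, q ≤ p ∧ q ∈ E n) (p : P) : ∃ q, q ≤ p ∧ ∀ n, ∃ r ∈ E n, q ≤ r := by
  choose f hf hf' using hE
  let s : ℕ → P := fun n => Nat.rec p (fun n a => f n a) n
  obtain ⟨q, hq⟩ := h s (antitone_nat_of_succ_le fun n => hf n (s n))
  exact ⟨q, hq 0, fun n => ⟨s (n + 1), hf' n (s n), hq (n + 1)⟩⟩

theorem SigmaClosed.cov {P : Type} [Preorder P] (h : SigmaClosed P) : Cov P := by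
  intro X D hD p
  obtain ⟨q, hq, hq'⟩ := h.baire (fun n => {a | (∃ x, a ∈ D n x) ∨ ∀ r, r ≤ a → ¬ ∃ x, r ∈ D n x})
    (fun n a => by
      by_cases hh : ∀ r, r ≤ a → ¬ ∃ x, r ∈ D n x
      · exact ⟨a, le_rfl, Or.inr hh⟩
      · simp only [not_forall, not_not] at hh
        obtain ⟨r, hr, hx⟩ := hh
        exact ⟨r, hr, Or.inl hx⟩) p
  choose a ha ha' using hq'
  refine ⟨q, hq, ⋃ n, {x | ∃ h : ∃ x, a n ∈ D n x, x = h.choose}, ?_, ?_⟩
  · refine Set.countable_iUnion fun n => Set.Subsingleton.countable ?_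
    rintro x ⟨_, rfl⟩ y ⟨_, rfl⟩
    rfl
  · intro n r hr hx
    rcases ha n with h1 | h1
    · exact ⟨h1.choose, Set.mem_iUnion.2 ⟨n, h1, rfl⟩, r, le_rfl,
        hD n _ _ _ h1.choose_spec (hr.trans (ha' n))⟩
    · exact absurd hx (h1 r (hr.trans (ha' n)))

/-! ### Countable partial functions -/

def Col (X Z : Type) : Type := {p : X → Option Z // {x | p x ≠ none}.Countable}

instance (X Z : Type) : Preorder (Col X Z) where
  le q p := ∀ x t, p.1 x = some t → q.1 x = some t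
  le_refl _ _ _ h := h
  le_trans _ _ _ h1 h2 x t h := h1 x t (h2 x t h)

instance (X Z : Type) : OrderTop (Col X Z) where
  top := ⟨fun _ => none, by simp⟩
  le_top _ _ _ h := by cases h

theorem col_closed (X Z : Type) : SigmaClosed (Col X Z) := by
  classical
  intro s hs
  refine ⟨⟨fun x => if h : ∃ n, (s n).1 x ≠ none then (s h.choose).1 x else none, ?_⟩, ?_⟩
  · refine (Set.countable_iUnion fun n => (s n).2).mono fun x hx => ?_
    by_cases h : ∃ n, (s n).1 x ≠ none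
    · exact Set.mem_iUnion.2 h
    · simp only [Set.mem_setOf_eq, dif_neg h] at hx
      exact absurd rfl hx
  · intro n x t ht
    have h : ∃ n, (s n).1 x ≠ none := ⟨n, by rw [ht]; simp⟩
    simp only [dif_pos h]
    obtain ⟨t', ht'⟩ := Option.ne_none_iff_exists'.1 h.choose_spec
    have h1 := hs (le_max_left n h.choose) x t ht
    have h2 := hs (le_max_right n h.choose) x t' ht'
    rw [ht', ← h2, h1]

theorem col_extend {X Z : Type} [Uncountable X] (p : Col X Z) (t : Z) :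
    ∃ q, q ≤ p ∧ ∃ x, q.1 x = some t := by
  classical
  obtain ⟨x, hx⟩ : ∃ x, p.1 x = none := by
    by_contra h
    exact Set.not_countable_univ (p.2.mono fun x _ hx => h ⟨x, hx⟩)
  refine ⟨⟨Function.update p.1 x (some t), ?_⟩, ?_, x, by simp⟩
  · refine (p.2.insert x).mono fun y hy => ?_
    by_cases h : y = x
    · exact Or.inl h
    · simp only [Set.mem_setOf_eq, Function.update_of_ne h] at hy
      exact Or.inr hy
  · intro y u hu
    have h : y ≠ x := by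
      rintro rfl
      rw [hx] at hu
      cases hu
    simp only [Function.update_of_ne h, hu]

/-! ### Finite partial functions -/

def Fnl {Y : Type} (p : Set (Y × Bool)) : Prop := ∀ y b c, (y, b) ∈ p → (y, c) ∈ p → b = c

def Coh (Y : Type) : Type := {p : Set (Y × Bool) // p.Finite ∧ Fnl p}

instance (Y : Type) : Preorder (Coh Y) where
  le q p := p.1 ⊆ q.1
  le_refl _ := subset_rfl
  le_trans _ _ _ h1 h2 := h2.trans h1

instance (Y : Type) : OrderTop (Coh Y) where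
  top := ⟨∅, Set.finite_empty, fun _ _ _ h => h.elim⟩
  le_top _ := Set.empty_subset _

theorem coh_join {Y : Type} {p q : Coh Y} (h : Fnl (p.1 ∪ q.1)) : ∃ r, r ≤ p ∧ r ≤ q :=
  ⟨⟨p.1 ∪ q.1, p.2.1.union q.2.1, h⟩, Set.subset_union_left, Set.subset_union_right⟩

theorem fnl_of_le {Y : Type} {p q r : Coh Y} (h : r ≤ p) (h' : r ≤ q) : Fnl (p.1 ∪ q.1) :=
  fun y b c h1 h2 => r.2.2 y b c (Set.union_subset h h' h1) (Set.union_subset h h' h2)

theorem countable_supp {Y : Type} {S : Set Y} (hS : S.Countable) :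
    {p : Coh Y | p.1 ⊆ S ×ˢ Set.univ}.Countable := by
  have h1 := Set.countable_ofPred_finite_subset (hS.prod (Set.to_countable (Set.univ : Set Bool)))
  refine (h1.preimage_of_injOn (f := fun p : Coh Y => p.1) Subtype.val_injective.injOn).mono ?_
  intro p hp
  exact ⟨p.2.1, hp⟩

/-- countable supports for predensity (the countable chain condition) -/
theorem coh_predense {Y : Type} (D : Set (Coh Y)) : ∃ S : Set Y, S.Countable ∧
    ∀ p : Coh Y, (∃ d ∈ D, Fnl (p.1 ∪ d.1)) →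
      ∃ d ∈ D, d.1 ⊆ S ×ˢ Set.univ ∧ Fnl (p.1 ∪ d.1) := by
  classical
  let ch : Coh Y → Coh Y := fun p => if h : ∃ d ∈ D, Fnl (p.1 ∪ d.1) then h.choose else ⊤
  let S : ℕ → Set Y := fun n => Nat.rec ∅
    (fun _ A => A ∪ ⋃ p ∈ {p : Coh Y | p.1 ⊆ A ×ˢ Set.univ}, Prod.fst '' (ch p).1) n
  have hS : ∀ n, S (n + 1) =
    S n ∪ ⋃ p ∈ {p : Coh Y | p.1 ⊆ S n ×ˢ Set.univ}, Prod.fst '' (ch p).1 := fun n => rfl
  have hc : ∀ n, (S n).Countable := by
    intro n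
    induction n with
    | zero => exact Set.countable_empty
    | succ n ih =>
      rw [hS]
      exact ih.union ((countable_supp ih).biUnion fun p _ => ((ch p).2.1.image _).countable)
  have hmono : Monotone S := monotone_nat_of_le_succ fun n => by
    rw [hS]; exact Set.subset_union_left
  refine ⟨⋃ n, S n, Set.countable_iUnion hc, fun p ⟨d, hd, hpd⟩ => ?_⟩
  let s : Coh Y := ⟨p.1 ∩ (⋃ n, S n) ×ˢ Set.univ, p.2.1.inter_of_left _,
    fun y b c h1 h2 => p.2.2 y b c h1.1 h2.1⟩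
  obtain ⟨k, hk⟩ : ∃ k, s.1 ⊆ S k ×ˢ Set.univ := by
    have h1 : ∀ a ∈ s.1, ∃ k, a.1 ∈ S k := fun a ha => Set.mem_iUnion.1 ha.2.1
    choose! κ hκ using h1
    obtain ⟨k, hk⟩ := (s.2.1.image κ).bddAbove
    exact ⟨k, fun a ha => ⟨hmono (hk ⟨a, ha, rfl⟩) (hκ a ha), trivial⟩⟩
  have hex : ∃ d ∈ D, Fnl (s.1 ∪ d.1) := ⟨d, hd, fun y b c h1 h2 => hpd y b c
    (h1.imp (fun h => h.1) id) (h2.imp (fun h => h.1) id)⟩
  have hch : ch s = hex.choose := dif_pos hex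
  have hsub : (hex.choose).1 ⊆ (⋃ n, S n) ×ˢ Set.univ := by
    intro a ha
    refine ⟨Set.mem_iUnion.2 ⟨k + 1, ?_⟩, trivial⟩
    rw [hS]
    exact Or.inr (Set.mem_biUnion (show s ∈ {p : Coh Y | p.1 ⊆ S k ×ˢ Set.univ} from hk)
      ⟨a, hch ▸ ha, rfl⟩)
  refine ⟨hex.choose, hex.choose_spec.1, hsub, ?_⟩
  rintro y b c (h1 | h1) (h2 | h2)
  · exact p.2.2 y b c h1 h2
  · exact hex.choose_spec.2 y b c (Or.inl ⟨h1, (hsub h2).1, trivial⟩) (Or.inr h2)
  · exact hex.choose_spec.2 y b c (Or.inr h1) (Or.inl ⟨h2, (hsub h1).1, trivial⟩)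
  · exact hex.choose.2.2 y b c h1 h2

theorem coh_cov (Y : Type) : Cov (Coh Y) := by
  intro X D hD p
  choose S hS hS' using fun n => coh_predense {d | ∃ x, d ∈ D n x}
  refine ⟨p, le_rfl, ⋃ n, ⋃ d ∈ {d : Coh Y | d.1 ⊆ S n ×ˢ Set.univ},
    {x | ∃ h : ∃ x, d ∈ D n x, x = h.choose}, ?_, ?_⟩
  · refine Set.countable_iUnion fun n => (countable_supp (hS n)).biUnion fun d _ =>
      Set.Subsingleton.countable ?_
    rintro x ⟨_, rfl⟩ y ⟨_, rfl⟩
    rfl
  · intro n r _ hx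
    obtain ⟨d, hd, h1, h2⟩ := hS' n r ⟨r, hx, fnl_of_le le_rfl le_rfl⟩
    obtain ⟨r', h3, h4⟩ := coh_join h2
    exact ⟨hd.choose, Set.mem_iUnion.2 ⟨n, Set.mem_biUnion
      (show d ∈ {d : Coh Y | d.1 ⊆ S n ×ˢ Set.univ} from h1) ⟨hd, rfl⟩⟩, r', h3,
      hD n _ _ _ hd.choose_spec h4⟩

/-- a fresh Cohen coordinate differs from all the given names of reals -/
theorem coh_fresh {X : Type} [Infinite X] (D : ℕ → X → Set (Coh (Set X × ℕ)))
    (hD : ∀ n x p q, p ∈ D n x → q ≤ p → q ∈ D n x) :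
    ∃ ξ : Set X, ∀ x p, ∃ q, q ≤ p ∧ ∃ n, (q ∈ D n x ∧ ((ξ, n), false) ∈ q.1) ∨
      ((∀ r, r ≤ q → r ∉ D n x) ∧ ((ξ, n), true) ∈ q.1) := by
  choose S hS hS' using fun i : X × ℕ =>
    coh_predense {d | d ∈ D i.2 i.1 ∨ ∀ r, r ≤ d → r ∉ D i.2 i.1}
  obtain ⟨ξ, hξ⟩ : ∃ ξ : Set X, ξ ∉ ⋃ i, Prod.fst '' S i := by
    by_contra h
    have h1 : (⋃ i, Prod.fst '' S i) = Set.univ :=
      Set.eq_univ_of_forall fun ξ => by_contra fun hh => h ⟨ξ, hh⟩
    have h2 := Cardinal.mk_iUnion_le (fun i => Prod.fst '' S i)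
    rw [h1, Cardinal.mk_univ, Cardinal.mk_set] at h2
    have h3 : (⨆ i, Cardinal.mk (Prod.fst '' S i)) ≤ Cardinal.aleph0 :=
      ciSup_le' fun i => ((hS i).image _).le_aleph0
    have h4 : Cardinal.mk (X × ℕ) * (⨆ i, Cardinal.mk (Prod.fst '' S i)) ≤ Cardinal.mk X := by
      refine (mul_le_mul_right h3 _).trans ?_
      simp
    exact absurd (h2.trans h4) (not_le.2 (Cardinal.cantor _))
  refine ⟨ξ, fun x p => ?_⟩
  obtain ⟨n, hn⟩ : ∃ n, n ∉ (fun a : (Set X × ℕ) × Bool => a.1.2) '' p.1 :=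
    (p.2.1.image _).exists_notMem
  obtain ⟨d, hd, h1, h2⟩ := hS' (x, n) p (by
    by_cases hh : ∀ r, r ≤ p → r ∉ D n x
    · exact ⟨p, Or.inr hh, fnl_of_le le_rfl le_rfl⟩
    · simp only [not_forall, not_not] at hh
      obtain ⟨r, hr, hx⟩ := hh
      exact ⟨r, Or.inl hx, fnl_of_le hr le_rfl⟩)
  have key : ∀ b : Bool, ∃ q : Coh (Set X × ℕ), q ≤ p ∧ q ≤ d ∧ ((ξ, n), b) ∈ q.1 := by
    intro b
    have hnot : ∀ c, ((ξ, n), c) ∉ p.1 ∪ d.1 := by
      rintro c (h | h)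
      · exact hn ⟨_, h, rfl⟩
      · exact hξ (Set.mem_iUnion.2 ⟨(x, n), _, (h1 h).1, rfl⟩)
    refine ⟨⟨insert ((ξ, n), b) (p.1 ∪ d.1), (p.2.1.union d.2.1).insert _, ?_⟩,
      fun a ha => Or.inr (Or.inl ha), fun a ha => Or.inr (Or.inr ha), Or.inl rfl⟩
    rintro y c c' (e1 | e1) (e2 | e2)
    · rw [(Prod.mk.inj e1).2, (Prod.mk.inj e2).2]
    · rw [(Prod.mk.inj e1).1] at e2; exact absurd e2 (hnot _)
    · rw [(Prod.mk.inj e2).1] at e1; exact absurd e1 (hnot _)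
    · exact h2 y c c' e1 e2
  rcases hd with hd | hd
  · obtain ⟨q, a, b, c⟩ := key false
    exact ⟨q, a, n, Or.inl ⟨hD _ _ _ _ hd b, c⟩⟩
  · obtain ⟨q, a, b, c⟩ := key true
    exact ⟨q, a, n, Or.inr ⟨fun r hr => hd r (hr.trans b), c⟩⟩

end Pool.Agent.H30Z.Forc
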