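import Pool.Agent.H30Z.Forc.Names

/-! Generic filters over a countable family of names, values of names, and the truth lemma. -/

namespace Pool.Agent.H30Z.Forc

open CohenE

variable {P : Type} [Preorder P] [OrderTop P]

/-- A requirement: given parameters, a condition and a witness. -/
abbrev Req (P : Type) := List (Nm P) → P → Nm P → Prop

def Req.Dense (R : Req P) : Prop := ∀ l p, ∃ q, q ≤ p ∧ ∃ τ, R l q τ

def Meets (N : Set (Nm P)) (G : Set P) (R : Req P) : Prop :=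
  ∀ l, (∀ x ∈ l, x ∈ N) → ∃ q ∈ G, ∃ τ ∈ N, R l q τ

structure IsFilt (G : Set P) : Prop where
  top : ⊤ ∈ G
  up : ∀ p ∈ G, ∀ q, p ≤ q → q ∈ G
  dir : ∀ p ∈ G, ∀ q ∈ G, ∃ r ∈ G, r ≤ p ∧ r ≤ q

theorem exists_generic_seq (R : ℕ → Req P) (hR : ∀ i, (R i).Dense) :
    ∃ (N : Set (Nm P)) (G : Set P), N.Countable ∧ IsFilt G ∧ ∀ i, Meets N G (R i) := by
  classical
  choose nq hnq nt hnt using hR
  let e : ℕ → ℕ × List ℕ := fun n => (Denumerable.ofNat (ℕ × List ℕ) n.unpair.1)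
  let s : ℕ → P × (ℕ → Nm P) := fun n => Nat.rec (motive := fun _ => P × (ℕ → Nm P))
    (⊤, fun _ => emptyN)
    (fun n st => (nq (e n).1 ((e n).2.map st.2) st.1,
      Function.update st.2 n (nt (e n).1 ((e n).2.map st.2) st.1))) n
  have hs : ∀ n, s (n + 1) = (nq (e n).1 ((e n).2.map (s n).2) (s n).1,
      Function.update (s n).2 n (nt (e n).1 ((e n).2.map (s n).2) (s n).1)) := fun n => rfl
  let t : ℕ → Nm P := fun n => (s (n + 1)).2 n
  have ht : ∀ m k, k < m → (s m).2 k = t k := by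
    intro m
    induction m with
    | zero => intro k hk; omega
    | succ m ih =>
      intro k hk
      by_cases h : k = m
      · subst h; rfl
      · rw [hs]
        simp only [Function.update_of_ne h]
        exact ih k (by omega)
  have hanti : Antitone fun n => (s n).1 := by
    refine antitone_nat_of_succ_le fun n => ?_
    rw [hs]
    exact hnq _ _ _
  refine ⟨Set.range t, {p | ∃ n, (s n).1 ≤ p}, Set.countable_range t, ⟨⟨0, le_top⟩, ?_, ?_⟩, ?_⟩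
  · rintro p ⟨n, hn⟩ q hq
    exact ⟨n, hn.trans hq⟩
  · rintro p ⟨n, hn⟩ q ⟨m, hm⟩
    exact ⟨(s (max n m)).1, ⟨_, le_rfl⟩, (hanti (le_max_left _ _)).trans hn,
      (hanti (le_max_right _ _)).trans hm⟩
  · intro i l hl
    obtain ⟨ks, hks⟩ : ∃ ks : List ℕ, ks.map t = l := by
      induction l with
      | nil => exact ⟨[], rfl⟩
      | cons a l ih =>
        obtain ⟨ks, hks⟩ := ih (fun x hx => hl x (List.mem_cons_of_mem _ hx))
        obtain ⟨k, hk⟩ := hl a (List.mem_cons_self)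
        exact ⟨k :: ks, by simp [hk, hks]⟩
    let n := Nat.pair (Encodable.encode (i, ks)) (ks.sum + 1)
    have hen : e n = (i, ks) := by
      simp only [e, n, Nat.unpair_pair]
      exact Denumerable.ofNat_encode _
    have hmap : ks.map (s n).2 = l := by
      rw [← hks]
      refine List.map_congr_left fun k hk => ht n k ?_
      have h1 : k ≤ ks.sum := List.le_sum_of_mem hk
      have h2 : ks.sum + 1 ≤ n := Nat.right_le_pair _ _
      omega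
    refine ⟨(s (n + 1)).1, ⟨n + 1, le_rfl⟩, t n, ⟨n, rfl⟩, ?_⟩
    have h1 : t n = nt i l (s n).1 := by
      simp only [t]
      rw [hs]
      simp only [Function.update_self, hen, hmap]
    have h2 : (s (n + 1)).1 = nq i l (s n).1 := by
      rw [hs]
      simp only [hen, hmap]
    rw [h1, h2]
    exact hnt _ _ _

theorem exists_generic (𝓡 : Set (Req P)) (hc : 𝓡.Countable) (hR : ∀ R ∈ 𝓡, R.Dense) :
    ∃ (N : Set (Nm P)) (G : Set P), N.Countable ∧ IsFilt G ∧ ∀ R ∈ 𝓡, Meets N G R := by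
  have h0 : (insert (fun _ _ _ => True) 𝓡 : Set (Req P)).Countable := hc.insert _
  obtain ⟨f, hf⟩ := h0.exists_eq_range (Set.insert_nonempty _ _)
  obtain ⟨N, G, h1, h2, h3⟩ := exists_generic_seq f (fun i => by
    have : f i ∈ (insert (fun _ _ _ => True) 𝓡 : Set (Req P)) := hf ▸ Set.mem_range_self i
    rcases this with h | h
    · rw [h]; intro l p; exact ⟨p, le_rfl, emptyN, trivial⟩
    · exact hR _ h)
  refine ⟨N, G, h1, h2, fun R hR => ?_⟩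
  have : R ∈ Set.range f := hf ▸ Set.mem_insert_of_mem _ hR
  obtain ⟨i, rfl⟩ := this
  exact h3 i

/-- the value of a name -/
noncomputable def val (N : Set (Nm P)) (G : Set P) : Nm P → ZFSet.{0}
  | .mk _ A B => ZFSet.range (fun i : {i // A i ∈ N ∧ B i ∈ G} => val N G (A i.1))

omit [Preorder P] [OrderTop P] in
theorem mem_val {N : Set (Nm P)} {G : Set P} {τ : Nm P} {z : ZFSet.{0}} :
    z ∈ val N G τ ↔ ∃ i, τ.A i ∈ N ∧ τ.B i ∈ G ∧ z = val N G (τ.A i) := by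
  cases τ with
  | mk α A B =>
    simp only [val, ZFSet.mem_range]
    constructor
    · rintro ⟨⟨i, h1, h2⟩, rfl⟩
      exact ⟨i, h1, h2, rfl⟩
    · rintro ⟨i, h1, h2, rfl⟩
      exact ⟨⟨i, h1, h2⟩, rfl⟩

/-- `q` forces that `ρ` is not an element of `τ` -/
def NMem (ρ τ : Nm P) (q : P) : Prop := ∀ r, r ≤ q → ¬ ∃ j, r ≤ τ.B j ∧ FEq ρ (τ.A j) r

/-- The closure and genericity properties needed for the forcing theorem. -/
structure Core (N : Set (Nm P)) (G : Set P) : Prop where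
  filt : IsFilt G
  memd : ∀ ρ ∈ N, ∀ τ ∈ N, ∃ q ∈ G,
    (∃ j, q ≤ τ.B j ∧ FEq ρ (τ.A j) q ∧ τ.A j ∈ N) ∨ NMem ρ τ q
  eqd : ∀ σ ∈ N, ∀ τ ∈ N, ∃ q ∈ G, FEq σ τ q ∨
    (∃ i, σ.A i ∈ N ∧ q ≤ σ.B i ∧ NMem (σ.A i) τ q) ∨
    (∃ j, τ.A j ∈ N ∧ q ≤ τ.B j ∧ ∀ r, r ≤ q → ¬ ∃ i, r ≤ σ.B i ∧ FEq (σ.A i) (τ.A j) r)
  dec : ∀ φ l, (∀ x ∈ l, x ∈ N) → ∃ q ∈ G, Force (lv l) φ q ∨ ∀ r, r ≤ q → ¬ Force (lv l) φ r
  exw : ∀ φ l, (∀ x ∈ l, x ∈ N) → ∃ q ∈ G,
    (Force (scons (wit φ (lv l) q) (lv l)) φ q ∧ wit φ (lv l) q ∈ N) ∨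
      ∀ r, r ≤ q → ¬ ∃ τ, Force (scons τ (lv l)) φ r
  pairm : ∀ a ∈ N, ∀ b ∈ N, pairN a b ∈ N
  comp : ∀ a b, pairN a b ∈ N → a ∈ N ∧ b ∈ N
  union : ∀ a ∈ N, unionN a ∈ N
  pow : ∀ a ∈ N, powN a ∈ N
  natm : ∀ n, natN n ∈ N
  omegam : omegaN ∈ N
  sep : ∀ φ l τ, (∀ x ∈ l, x ∈ N) → τ ∈ N → sepN φ (lv l) τ ∈ N
  repl : ∀ φ l τ, (∀ x ∈ l, x ∈ N) → τ ∈ N → replN φ (lv l) τ ∈ N
  choice : ∀ τ ∈ N, choiceN τ ∈ N
  first : ∀ ρ ∈ N, ∀ τ ∈ N, ∃ q ∈ G, (∃ k, First τ ρ k q ∧ τ.A k ∈ N) ∨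
    ∀ k r, r ≤ q → ¬ FMem (τ.A k) ρ r

/-- closure under a function -/
def clos (F : List (Nm P) → Nm P) : Req P := fun l _ τ => τ = F l

omit [OrderTop P] in
theorem clos_dense (F : List (Nm P) → Nm P) : (clos F).Dense :=
  fun l p => ⟨p, le_rfl, F l, rfl⟩

omit [Preorder P] [OrderTop P] in
theorem Meets.clos {N : Set (Nm P)} {G : Set P} {F : List (Nm P) → Nm P}
    (h : Meets N G (clos F)) (l : List (Nm P)) (hl : ∀ x ∈ l, x ∈ N) : F l ∈ N := by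
  obtain ⟨q, -, τ, hτ, e⟩ := h l hl
  rw [← e]; exact hτ

noncomputable def fstN (τ : Nm P) : Nm P :=
  @Classical.epsilon _ ⟨emptyN⟩ (fun a => ∃ b, τ = pairN a b)

noncomputable def sndN (τ : Nm P) : Nm P :=
  @Classical.epsilon _ ⟨emptyN⟩ (fun b => ∃ a, τ = pairN a b)

theorem fstN_pair (a b : Nm P) : fstN (pairN a b) = a := by
  obtain ⟨c, hc⟩ := @Classical.epsilon_spec _ (fun x => ∃ y, pairN a b = pairN x y) ⟨a, b, rfl⟩
  exact (pairN_inj hc).1.symm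

theorem sndN_pair (a b : Nm P) : sndN (pairN a b) = b := by
  obtain ⟨c, hc⟩ := @Classical.epsilon_spec _ (fun y => ∃ x, pairN a b = pairN x y) ⟨b, a, rfl⟩
  exact (pairN_inj hc).2.symm

instance : Countable Fml := by
  let enc : Fml → ℕ := fun φ => Fml.rec (fun i j => Nat.pair 0 (Nat.pair i j))
    (fun i j => Nat.pair 1 (Nat.pair i j)) (fun _ a => Nat.pair 2 a)
    (fun _ _ a b => Nat.pair 3 (Nat.pair a b)) (fun _ a => Nat.pair 4 a) φ
  refine ⟨enc, ?_⟩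
  intro φ
  induction φ with
  | mem i j => intro ψ h; cases ψ <;> simp_all [enc]
  | eq i j => intro ψ h; cases ψ <;> simp_all [enc]
  | neg φ ih =>
    intro ψ h
    cases ψ <;> simp [enc] at h ⊢
    exact ih h
  | and φ φ' ih ih' =>
    intro ψ h
    cases ψ <;> simp [enc] at h ⊢
    exact ⟨ih h.1, ih' h.2⟩
  | ex φ ih =>
    intro ψ h
    cases ψ <;> simp [enc] at h ⊢
    exact ih h

/-- the core requirements -/
noncomputable def coreReq (P : Type) [Preorder P] [OrderTop P] : ℕ × Fml → Req P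
  | (0, _) => fun l q τ => (∃ j, q ≤ (lv l 1).B j ∧ FEq (lv l 0) ((lv l 1).A j) q ∧
      τ = (lv l 1).A j) ∨ NMem (lv l 0) (lv l 1) q
  | (1, _) => fun l q τ => FEq (lv l 0) (lv l 1) q ∨
      (∃ i, τ = (lv l 0).A i ∧ q ≤ (lv l 0).B i ∧ NMem ((lv l 0).A i) (lv l 1) q) ∨
      (∃ j, τ = (lv l 1).A j ∧ q ≤ (lv l 1).B j ∧
        ∀ r, r ≤ q → ¬ ∃ i, r ≤ (lv l 0).B i ∧ FEq ((lv l 0).A i) ((lv l 1).A j) r)
  | (2, φ) => fun l q _ => Force (lv l) φ q ∨ ∀ r, r ≤ q → ¬ Force (lv l) φ r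
  | (3, φ) => fun l q τ => (Force (scons (wit φ (lv l) q) (lv l)) φ q ∧ τ = wit φ (lv l) q) ∨
      ∀ r, r ≤ q → ¬ ∃ τ, Force (scons τ (lv l)) φ r
  | (4, _) => clos fun l => pairN (lv l 0) (lv l 1)
  | (5, _) => clos fun l => fstN (lv l 0)
  | (6, _) => clos fun l => sndN (lv l 0)
  | (7, _) => clos fun l => unionN (lv l 0)
  | (8, _) => clos fun l => powN (lv l 0)
  | (9, _) => clos fun l => insN (lv l 0)
  | (10, _) => clos fun _ => omegaN
  | (11, φ) => clos fun l => sepN φ (lv l.tail) (lv l 0)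
  | (12, φ) => clos fun l => replN φ (lv l.tail) (lv l 0)
  | (13, _) => clos fun l => choiceN (lv l 0)
  | (14, _) => fun l q τ => (∃ k, First (lv l 1) (lv l 0) k q ∧ τ = (lv l 1).A k) ∨
      ∀ k r, r ≤ q → ¬ FMem ((lv l 1).A k) (lv l 0) r
  | (_ + 15, _) => clos fun _ => emptyN

theorem coreReq_dense (x : ℕ × Fml) : (coreReq P x).Dense := by
  obtain ⟨n, φ⟩ := x
  match n with
  | 0 =>
    intro l p
    by_cases h : NMem (lv l 0) (lv l 1) p
    · exact ⟨p, le_rfl, emptyN, Or.inr h⟩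
    · simp only [NMem, not_forall, not_not] at h
      obtain ⟨r, hr, j, h1, h2⟩ := h
      exact ⟨r, hr, _, Or.inl ⟨j, h1, h2, rfl⟩⟩
  | 1 =>
    intro l p
    by_cases h : FEq (lv l 0) (lv l 1) p
    · exact ⟨p, le_rfl, emptyN, Or.inl h⟩
    · rw [feq_iff, not_and_or] at h
      rcases h with h | h
      · simp only [not_forall] at h
        obtain ⟨i, q, hq, hq', h⟩ := h
        refine ⟨q, hq, _, Or.inr (Or.inl ⟨i, rfl, hq', fun r hr hh => h ⟨r, hr, hh⟩⟩)⟩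
      · simp only [not_forall] at h
        obtain ⟨i, q, hq, hq', h⟩ := h
        refine ⟨q, hq, _, Or.inr (Or.inr ⟨i, rfl, hq', fun r hr hh => h ⟨r, hr, hh⟩⟩)⟩
  | 2 =>
    intro l p
    by_cases h : ∀ r, r ≤ p → ¬ Force (lv l) φ r
    · exact ⟨p, le_rfl, emptyN, Or.inr h⟩
    · simp only [not_forall, not_not] at h
      obtain ⟨r, hr, h⟩ := h
      exact ⟨r, hr, emptyN, Or.inl h⟩
  | 3 =>
    intro l p
    by_cases h : ∀ r, r ≤ p → ¬ ∃ τ, Force (scons τ (lv l)) φ r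
    · exact ⟨p, le_rfl, emptyN, Or.inr h⟩
    · simp only [not_forall, not_not] at h
      obtain ⟨r, hr, h⟩ := h
      exact ⟨r, hr, _, Or.inl ⟨wit_spec h, rfl⟩⟩
  | 4 | 5 | 6 | 7 | 8 | 9 | 10 | 11 | 12 | 13 => exact clos_dense _
  | 14 =>
    intro l p
    by_cases h : ∀ k r, r ≤ p → ¬ FMem ((lv l 1).A k) (lv l 0) r
    · exact ⟨p, le_rfl, emptyN, Or.inr h⟩
    · simp only [not_forall, not_not] at h
      have hne : {k | ∃ r, r ≤ p ∧ FMem ((lv l 1).A k) (lv l 0) r}.Nonempty := by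
        obtain ⟨k, r, hr, h⟩ := h
        exact ⟨k, r, hr, h⟩
      have wf : WellFounded (WellOrderingRel (α := (lv l 1).T)) := IsWellFounded.wf
      obtain ⟨r, hr, hk⟩ := wf.min_mem _ hne
      refine ⟨r, hr, _, Or.inl ⟨wf.min _ hne, ⟨hk, fun k' hk' r' hr' hh => ?_⟩, rfl⟩⟩
      exact wf.not_lt_min _ (show k' ∈ {k | ∃ r, r ≤ p ∧ FMem ((lv l 1).A k) (lv l 0) r} from
        ⟨r', hr'.trans hr, hh⟩) hk'
  | _ + 15 => exact clos_dense _

theorem Core.of_meets {N : Set (Nm P)} {G : Set P} (hG : IsFilt G)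
    (h : ∀ x, Meets N G (coreReq P x)) : Core N G := by
  have φ0 : Fml := .mem 0 0
  have two : ∀ a ∈ N, ∀ b ∈ N, ∀ x ∈ [a, b], x ∈ N := by
    intro a ha b hb x hx
    simp only [List.mem_cons, List.not_mem_nil, or_false] at hx
    rcases hx with rfl | rfl <;> assumption
  have one : ∀ a ∈ N, ∀ x ∈ [a], x ∈ N := by
    intro a ha x hx
    simp only [List.mem_cons, List.not_mem_nil, or_false] at hx
    rw [hx]; exact ha
  have cons : ∀ (l : List (Nm P)) τ, (∀ x ∈ l, x ∈ N) → τ ∈ N → ∀ x ∈ τ :: l, x ∈ N := by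
    intro l τ hl hτ x hx
    rcases List.mem_cons.1 hx with rfl | hx
    · exact hτ
    · exact hl x hx
  refine ⟨hG, ?_, ?_, ?_, ?_, ?_, ?_, ?_, ?_, ?_, ?_, ?_, ?_, ?_, ?_⟩
  · intro ρ hρ τ hτ
    obtain ⟨q, hq, a, ha, h⟩ := h (0, φ0) _ (two ρ hρ τ hτ)
    refine ⟨q, hq, ?_⟩
    rcases h with ⟨j, h1, h2, h3⟩ | h
    · exact Or.inl ⟨j, h1, h2, h3 ▸ ha⟩
    · exact Or.inr h
  · intro ρ hρ τ hτ
    obtain ⟨q, hq, a, ha, h⟩ := h (1, φ0) _ (two ρ hρ τ hτ)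
    refine ⟨q, hq, ?_⟩
    rcases h with h | ⟨j, h1, h2, h3⟩ | ⟨j, h1, h2, h3⟩
    · exact Or.inl h
    · exact Or.inr (Or.inl ⟨j, h1 ▸ ha, h2, h3⟩)
    · exact Or.inr (Or.inr ⟨j, h1 ▸ ha, h2, h3⟩)
  · intro φ l hl
    obtain ⟨q, hq, a, ha, h⟩ := h (2, φ) l hl
    exact ⟨q, hq, h⟩
  · intro φ l hl
    obtain ⟨q, hq, a, ha, h⟩ := h (3, φ) l hl
    refine ⟨q, hq, ?_⟩
    rcases h with ⟨h1, h2⟩ | h
    · exact Or.inl ⟨h1, h2 ▸ ha⟩
    · exact Or.inr h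
  · intro a ha b hb
    exact (h (4, φ0)).clos _ (two a ha b hb)
  · intro a b hab
    have h1 := (h (5, φ0)).clos _ (one _ hab)
    have h2 := (h (6, φ0)).clos _ (one _ hab)
    exact ⟨by rw [← fstN_pair a b]; exact h1, by rw [← sndN_pair a b]; exact h2⟩
  · intro a ha
    exact (h (7, φ0)).clos _ (one a ha)
  · intro a ha
    exact (h (8, φ0)).clos _ (one a ha)
  · intro n
    induction n with
    | zero => exact (h (15, φ0)).clos [] (by simp)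
    | succ n ih => exact (h (9, φ0)).clos _ (one _ ih)
  · exact (h (10, φ0)).clos [] (by simp)
  · intro φ l τ hl hτ
    exact (h (11, φ)).clos _ (cons l τ hl hτ)
  · intro φ l τ hl hτ
    exact (h (12, φ)).clos _ (cons l τ hl hτ)
  · intro a ha
    exact (h (13, φ0)).clos _ (one a ha)
  · intro ρ hρ τ hτ
    obtain ⟨q, hq, a, ha, h⟩ := h (14, φ0) _ (two ρ hρ τ hτ)
    refine ⟨q, hq, ?_⟩
    rcases h with ⟨j, h1, h2⟩ | h
    · exact Or.inl ⟨j, h1, h2 ▸ ha⟩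
    · exact Or.inr h

end Pool.Agent.H30Z.Forc
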