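import Pool.Agent.Helper212.CohenE.Defn

/-! Names and the forcing relation for a preorder `P` with a top element. -/

namespace Pool.Agent.H30Z.Forc

open CohenE

/-- `P`-names. -/
inductive Nm (P : Type) : Type 1
  | mk (α : Type) (A : α → Nm P) (B : α → P) : Nm P

variable {P : Type}

def Nm.T : Nm P → Type
  | .mk α _ _ => α

def Nm.A : (τ : Nm P) → τ.T → Nm P
  | .mk _ A _ => A

def Nm.B : (τ : Nm P) → τ.T → P
  | .mk _ _ B => B

theorem Nm.ind {C : Nm P → Prop} (h : ∀ τ, (∀ i, C (τ.A i)) → C τ) (τ : Nm P) : C τ := by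
  induction τ with
  | mk α A B ih => exact h _ ih

variable [Preorder P]

/-- forcing of equality -/
def FEq : Nm P → Nm P → P → Prop
  | .mk _ A B, .mk _ A' B', p =>
    (∀ i q, q ≤ p → q ≤ B i → ∃ r, r ≤ q ∧ ∃ j, r ≤ B' j ∧ FEq (A i) (A' j) r) ∧
    (∀ j q, q ≤ p → q ≤ B' j → ∃ r, r ≤ q ∧ ∃ i, r ≤ B i ∧ FEq (A i) (A' j) r)

theorem feq_iff (σ τ : Nm P) (p : P) : FEq σ τ p ↔
    (∀ i q, q ≤ p → q ≤ σ.B i → ∃ r, r ≤ q ∧ ∃ j, r ≤ τ.B j ∧ FEq (σ.A i) (τ.A j) r) ∧
    (∀ j q, q ≤ p → q ≤ τ.B j → ∃ r, r ≤ q ∧ ∃ i, r ≤ σ.B i ∧ FEq (σ.A i) (τ.A j) r) := by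
  cases σ; cases τ; rfl

/-- forcing of membership -/
def FMem (σ τ : Nm P) (p : P) : Prop :=
  ∀ q, q ≤ p → ∃ r, r ≤ q ∧ ∃ j, r ≤ τ.B j ∧ FEq σ (τ.A j) r

theorem FEq.mono {σ τ : Nm P} {p q : P} (h : FEq σ τ p) (hq : q ≤ p) : FEq σ τ q := by
  rw [feq_iff] at h ⊢
  exact ⟨fun i r hr => h.1 i r (hr.trans hq), fun i r hr => h.2 i r (hr.trans hq)⟩

theorem FMem.mono {σ τ : Nm P} {p q : P} (h : FMem σ τ p) (hq : q ≤ p) : FMem σ τ q :=
  fun r hr => h r (hr.trans hq)

theorem FEq.refl (σ : Nm P) : ∀ p : P, FEq σ σ p := by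
  induction σ using Nm.ind with
  | _ σ ih =>
  intro p
  rw [feq_iff]
  exact ⟨fun i q _ hq => ⟨q, le_rfl, i, hq, ih i q⟩, fun i q _ hq => ⟨q, le_rfl, i, hq, ih i q⟩⟩

theorem FEq.symm' (σ : Nm P) : ∀ (τ : Nm P) (p : P), FEq σ τ p → FEq τ σ p := by
  induction σ using Nm.ind with
  | _ σ ih =>
  intro τ p h
  rw [feq_iff] at h ⊢
  refine ⟨fun j q h1 h2 => ?_, fun i q h1 h2 => ?_⟩
  · obtain ⟨r, hr, i, h3, h4⟩ := h.2 j q h1 h2
    exact ⟨r, hr, i, h3, ih i _ _ h4⟩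
  · obtain ⟨r, hr, j, h3, h4⟩ := h.1 i q h1 h2
    exact ⟨r, hr, j, h3, ih i _ _ h4⟩

theorem FEq.symm {σ τ : Nm P} {p : P} (h : FEq σ τ p) : FEq τ σ p := FEq.symm' σ τ p h

theorem FMem.of_child (τ : Nm P) (j : τ.T) {p : P} (h : p ≤ τ.B j) : FMem (τ.A j) τ p :=
  fun q hq => ⟨q, le_rfl, j, hq.trans h, FEq.refl _ _⟩

/-- the forcing relation -/
def Force : (ℕ → Nm P) → Fml → P → Prop
  | v, .mem i j, p => FMem (v i) (v j) p
  | v, .eq i j, p => FEq (v i) (v j) p
  | v, .neg φ, p => ∀ q, q ≤ p → ¬ Force v φ q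
  | v, .and φ ψ, p => Force v φ p ∧ Force v ψ p
  | v, .ex φ, p => ∀ q, q ≤ p → ∃ r, r ≤ q ∧ ∃ τ, Force (scons τ v) φ r

theorem Force.mono (φ : Fml) : ∀ {v : ℕ → Nm P} {p q : P}, Force v φ p → q ≤ p → Force v φ q := by
  induction φ with
  | mem i j => intro v p q h hq; exact FMem.mono h hq
  | eq i j => intro v p q h hq; exact FEq.mono h hq
  | neg φ _ => intro v p q h hq r hr; exact h r (hr.trans hq)
  | and φ ψ ih ih' => intro v p q h hq; exact ⟨ih h.1 hq, ih' h.2 hq⟩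
  | ex φ _ => intro v p q h hq r hr; exact h r (hr.trans hq)

/-- a bound for the free variables -/
def bd : Fml → ℕ
  | .mem i j => max i j + 1
  | .eq i j => max i j + 1
  | .neg φ => bd φ
  | .and φ ψ => max (bd φ) (bd ψ)
  | .ex φ => bd φ

theorem scons_agree {A : Type*} {k : ℕ} {v w : ℕ → A} (h : ∀ i < k, v i = w i) (a : A) :
    ∀ i < k, scons a v i = scons a w i := by
  intro i hi
  cases i with
  | zero => rfl
  | succ i => exact h i (by omega)

theorem force_congr (φ : Fml) : ∀ {v w : ℕ → Nm P}, (∀ i < bd φ, v i = w i) → ∀ p,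
    (Force v φ p ↔ Force w φ p) := by
  induction φ with
  | mem i j =>
    intro v w h p
    simp only [Force, h i (by simp only [bd]; omega), h j (by simp only [bd]; omega)]
  | eq i j =>
    intro v w h p
    simp only [Force, h i (by simp only [bd]; omega), h j (by simp only [bd]; omega)]
  | neg φ ih => intro v w h p; simp only [Force, ih h]
  | and φ ψ ih ih' =>
    intro v w h p
    simp only [Force, ih (fun i hi => h i (by simp only [bd]; omega)),
      ih' (fun i hi => h i (by simp only [bd]; omega))]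
  | ex φ ih =>
    intro v w h p
    simp only [Force, fun τ => ih (scons_agree h τ)]

theorem sat_congr {M : Set ZFSet.{0}} (φ : Fml) : ∀ {v w : ℕ → M}, (∀ i < bd φ, v i = w i) →
    (Sat M v φ ↔ Sat M w φ) := by
  induction φ with
  | mem i j =>
    intro v w h
    simp only [Sat, h i (by simp only [bd]; omega), h j (by simp only [bd]; omega)]
  | eq i j =>
    intro v w h
    simp only [Sat, h i (by simp only [bd]; omega), h j (by simp only [bd]; omega)]
  | neg φ ih => intro v w h; simp only [Sat, ih h]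
  | and φ ψ ih ih' =>
    intro v w h
    simp only [Sat, ih (fun i hi => h i (by simp only [bd]; omega)),
      ih' (fun i hi => h i (by simp only [bd]; omega))]
  | ex φ ih =>
    intro v w h
    simp only [Sat, fun τ => ih (scons_agree h τ)]

/-! ### Special names -/

def emptyN : Nm P := .mk PEmpty PEmpty.elim PEmpty.elim

/-- assignment given by a list -/
def lv (l : List (Nm P)) (i : ℕ) : Nm P := l.getD i emptyN

omit [Preorder P] in
theorem lv_cons (a : Nm P) (l : List (Nm P)) : lv (a :: l) = scons a (lv l) := by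
  funext i
  cases i <;> rfl

/-- the subname given by a set of (index, condition) pairs -/
def subN (τ : Nm P) (S : Set (τ.T × P)) : Nm P := .mk S (fun x => τ.A x.1.1) (fun x => x.1.2)

def sepN (φ : Fml) (v : ℕ → Nm P) (τ : Nm P) : Nm P :=
  subN τ {x | x.2 ≤ τ.B x.1 ∧ Force (scons (τ.A x.1) v) φ x.2}

/-- canonical witness -/
noncomputable def wit (φ : Fml) (v : ℕ → Nm P) (q : P) : Nm P :=
  @Classical.epsilon _ ⟨emptyN⟩ (fun τ => Force (scons τ v) φ q)

theorem wit_spec {φ : Fml} {v : ℕ → Nm P} {q : P} (h : ∃ τ, Force (scons τ v) φ q) :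
    Force (scons (wit φ v q) v) φ q :=
  @Classical.epsilon_spec _ (fun τ => Force (scons τ v) φ q) h

variable [OrderTop P]

def pairN (σ τ : Nm P) : Nm P := .mk Bool (fun b => cond b σ τ) (fun _ => ⊤)

def opN (σ τ : Nm P) : Nm P := pairN (pairN σ σ) (pairN σ τ)

def unionN (τ : Nm P) : Nm P :=
  .mk (Σ i : τ.T, (τ.A i).T) (fun x => (τ.A x.1).A x.2) (fun _ => ⊤)

def powN (τ : Nm P) : Nm P := .mk (Set (τ.T × P)) (fun S => subN τ S) (fun _ => ⊤)

def insN (τ : Nm P) : Nm P :=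
  .mk (Option τ.T) (fun o => o.elim τ τ.A) (fun o => o.elim ⊤ τ.B)

def natN : ℕ → Nm P
  | 0 => emptyN
  | n + 1 => insN (natN n)

def omegaN : Nm P := .mk ℕ natN (fun _ => ⊤)

noncomputable def replN (φ : Fml) (v : ℕ → Nm P) (τ : Nm P) : Nm P :=
  .mk (τ.T × P) (fun x => wit φ (scons (τ.A x.1) v) x.2) (fun _ => ⊤)

/-- `q` forces that the `k`-th child of `u` is the first one in `ρ`. -/
def First (u ρ : Nm P) (k : u.T) (q : P) : Prop :=
  FMem (u.A k) ρ q ∧ ∀ k', WellOrderingRel k' k → ∀ r, r ≤ q → ¬ FMem (u.A k') ρ r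

def choiceN (τ : Nm P) : Nm P :=
  .mk {x : τ.T × (unionN τ).T × P // First (unionN τ) (τ.A x.1) x.2.1 x.2.2}
    (fun x => opN (τ.A x.1.1) ((unionN τ).A x.1.2.1)) (fun x => x.1.2.2)

theorem pairN_inj {a b c d : Nm P} (h : pairN a b = pairN c d) : a = c ∧ b = d := by
  simp only [pairN, Nm.mk.injEq, heq_eq_eq, true_and] at h
  exact ⟨congrFun h.1 true, congrFun h.1 false⟩

end Pool.Agent.H30Z.Forc
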