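import Pool.Agent.H30Z.Forc.Generic
import Pool.Agent.Helper212.CohenE.Sets

/-! The truth lemma, and the generic extension is a countable transitive model of ZFC. -/

namespace Pool.Agent.H30Z.Forc

open CohenE ZFSet

variable {P : Type} [Preorder P] [OrderTop P] {N : Set (Nm P)} {G : Set P}

theorem IsFilt.dir3 (h : IsFilt G) {p q r : P} (hp : p ∈ G) (hq : q ∈ G) (hr : r ∈ G) :
    ∃ s ∈ G, s ≤ p ∧ s ≤ q ∧ s ≤ r := by
  obtain ⟨a, ha, h1, h2⟩ := h.dir p hp q hq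
  obtain ⟨b, hb, h3, h4⟩ := h.dir a ha r hr
  exact ⟨b, hb, h3.trans h1, h3.trans h2, h4⟩

theorem Core.val_eq_of (hC : Core N G) (σ : Nm P) : ∀ τ, σ ∈ N → τ ∈ N → ∀ p ∈ G, FEq σ τ p →
    val N G σ = val N G τ := by
  induction σ using Nm.ind with
  | _ σ ih =>
  intro τ hσ hτ p hp h
  rw [feq_iff] at h
  ext z
  simp only [mem_val]
  constructor
  · rintro ⟨i, h1, h2, rfl⟩
    obtain ⟨q, hq, ⟨j, h3, h4, h5⟩ | h3⟩ := hC.memd _ h1 τ hτ
    · exact ⟨j, h5, hC.filt.up q hq _ h3, ih i _ h1 h5 q hq h4⟩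
    · obtain ⟨s, -, a, b, c⟩ := hC.filt.dir3 hp hq h2
      obtain ⟨r, hr, hj⟩ := h.1 i s a c
      exact absurd hj (h3 r (hr.trans b))
  · rintro ⟨j, h1, h2, rfl⟩
    -- decide which child of `σ` equals the `j`-th child of `τ`
    obtain ⟨q, hq, ⟨i, h3, h4, h5⟩ | h3⟩ := hC.memd _ h1 σ hσ
    · refine ⟨i, h5, hC.filt.up q hq _ h3, (ih i _ h5 h1 q hq (FEq.symm h4)).symm⟩
    · obtain ⟨s, -, a, b, c⟩ := hC.filt.dir3 hp hq h2
      obtain ⟨r, hr, i, hi, hi'⟩ := h.2 j s a c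
      exact absurd ⟨i, hi, FEq.symm hi'⟩ (h3 r (hr.trans b))

theorem Core.feq_of (hC : Core N G) (σ : Nm P) : ∀ τ, σ ∈ N → τ ∈ N →
    val N G σ = val N G τ → ∃ p ∈ G, FEq σ τ p := by
  induction σ using Nm.ind with
  | _ σ ih =>
  intro τ hσ hτ h
  obtain ⟨q, hq, h1 | ⟨i, h1, h2, h3⟩ | ⟨j, h1, h2, h3⟩⟩ := hC.eqd σ hσ τ hτ
  · exact ⟨q, hq, h1⟩
  · exfalso
    have : val N G (σ.A i) ∈ val N G τ := h ▸ mem_val.2 ⟨i, h1, hC.filt.up q hq _ h2, rfl⟩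
    obtain ⟨j, h4, h5, h6⟩ := mem_val.1 this
    obtain ⟨p, hp, h7⟩ := ih i _ h1 h4 h6
    obtain ⟨s, -, a, b, c⟩ := hC.filt.dir3 hp hq h5
    exact h3 s b ⟨j, c, h7.mono a⟩
  · exfalso
    have : val N G (τ.A j) ∈ val N G σ := h ▸ mem_val.2 ⟨j, h1, hC.filt.up q hq _ h2, rfl⟩
    obtain ⟨i, h4, h5, h6⟩ := mem_val.1 this
    obtain ⟨p, hp, h7⟩ := ih i _ h4 h1 h6.symm
    obtain ⟨s, -, a, b, c⟩ := hC.filt.dir3 hp hq h5
    exact h3 s b ⟨i, c, h7.mono a⟩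

theorem Core.eq_iff (hC : Core N G) {σ τ : Nm P} (hσ : σ ∈ N) (hτ : τ ∈ N) :
    val N G σ = val N G τ ↔ ∃ p ∈ G, FEq σ τ p :=
  ⟨hC.feq_of σ τ hσ hτ, fun ⟨p, hp, h⟩ => hC.val_eq_of σ τ hσ hτ p hp h⟩

theorem Core.mem_iff (hC : Core N G) {σ τ : Nm P} (hσ : σ ∈ N) (hτ : τ ∈ N) :
    val N G σ ∈ val N G τ ↔ ∃ p ∈ G, FMem σ τ p := by
  constructor
  · intro h
    obtain ⟨j, h1, h2, h3⟩ := mem_val.1 h
    obtain ⟨p, hp, h4⟩ := (hC.eq_iff hσ h1).1 h3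
    obtain ⟨r, hr, a, b⟩ := hC.filt.dir p hp _ h2
    exact ⟨r, hr, fun q hq => ⟨q, le_rfl, j, hq.trans b, h4.mono (hq.trans a)⟩⟩
  · rintro ⟨p, hp, h⟩
    obtain ⟨q, hq, ⟨j, h3, h4, h5⟩ | h3⟩ := hC.memd _ hσ τ hτ
    · exact mem_val.2 ⟨j, h5, hC.filt.up q hq _ h3, (hC.eq_iff hσ h5).2 ⟨q, hq, h4⟩⟩
    · obtain ⟨s, -, a, b⟩ := hC.filt.dir p hp q hq
      obtain ⟨r, hr, hj⟩ := h s a
      exact absurd hj (h3 r (hr.trans b))

/-- the generic extension -/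
def Ext (N : Set (Nm P)) (G : Set P) : Set ZFSet.{0} := val N G '' N

theorem Core.empty_mem (hC : Core N G) : (emptyN : Nm P) ∈ N := hC.natm 0

theorem Core.lv_mem (hC : Core N G) {l : List (Nm P)} (hl : ∀ x ∈ l, x ∈ N) (i : ℕ) :
    lv l i ∈ N := by
  unfold lv
  by_cases h : i < l.length
  · rw [List.getD_eq_getElem _ _ h]
    exact hl _ (List.getElem_mem h)
  · rw [List.getD_eq_default _ _ (by omega)]
    exact hC.empty_mem

omit [Preorder P] [OrderTop P] in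
theorem exists_list {v : ℕ → Nm P} (hv : ∀ i, v i ∈ N) (k : ℕ) :
    ∃ l : List (Nm P), (∀ x ∈ l, x ∈ N) ∧ ∀ i < k, lv l i = v i := by
  refine ⟨(List.range k).map v, ?_, ?_⟩
  · intro x hx
    obtain ⟨i, -, rfl⟩ := List.mem_map.1 hx
    exact hv i
  · intro i hi
    unfold lv
    rw [List.getD_eq_getElem _ _ (by simpa using hi)]
    simp

omit [Preorder P] [OrderTop P] in
theorem scons_mem {v : ℕ → Nm P} (hv : ∀ i, v i ∈ N) {a : Nm P} (ha : a ∈ N) :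
    ∀ i, scons a v i ∈ N := by
  intro i
  cases i with
  | zero => exact ha
  | succ i => exact hv i

/-- **Truth lemma.** -/
theorem Core.truth (hC : Core N G) (φ : Fml) : ∀ (v : ℕ → Nm P) (w : ℕ → Ext N G),
    (∀ i, v i ∈ N) → (∀ i, (w i : ZFSet.{0}) = val N G (v i)) →
    (Sat (Ext N G) w φ ↔ ∃ p ∈ G, Force v φ p) := by
  induction φ with
  | mem i j =>
    intro v w hv hw
    simp only [Sat, Force, hw]
    exact hC.mem_iff (hv i) (hv j)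
  | eq i j =>
    intro v w hv hw
    simp only [Sat, Force, Subtype.ext_iff, hw]
    exact hC.eq_iff (hv i) (hv j)
  | neg φ ih =>
    intro v w hv hw
    simp only [Sat, Force, ih v w hv hw]
    constructor
    · intro h
      obtain ⟨l, hl, hlv⟩ := exists_list hv (bd φ)
      obtain ⟨q, hq, h1 | h1⟩ := hC.dec φ l hl
      · exact absurd ⟨q, hq, (force_congr φ hlv q).1 h1⟩ h
      · exact ⟨q, hq, fun r hr hh => h1 r hr ((force_congr φ hlv r).2 hh)⟩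
    · rintro ⟨p, hp, h⟩ ⟨q, hq, h'⟩
      obtain ⟨r, -, a, b⟩ := hC.filt.dir p hp q hq
      exact h r a (Force.mono φ h' b)
  | and φ ψ ih ih' =>
    intro v w hv hw
    simp only [Sat, Force, ih v w hv hw, ih' v w hv hw]
    constructor
    · rintro ⟨⟨p, hp, h⟩, ⟨q, hq, h'⟩⟩
      obtain ⟨r, hr, a, b⟩ := hC.filt.dir p hp q hq
      exact ⟨r, hr, Force.mono φ h a, Force.mono ψ h' b⟩
    · rintro ⟨p, hp, h, h'⟩
      exact ⟨⟨p, hp, h⟩, ⟨p, hp, h'⟩⟩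
  | ex φ ih =>
    intro v w hv hw
    simp only [Sat, Force]
    have key : ∀ (τ : Nm P) (hτ : τ ∈ N), Sat (Ext N G) (scons ⟨val N G τ, τ, hτ, rfl⟩ w) φ ↔
        ∃ p ∈ G, Force (scons τ v) φ p := by
      intro τ hτ
      refine ih _ _ (scons_mem hv hτ) ?_
      intro i
      cases i with
      | zero => rfl
      | succ i => exact hw i
    constructor
    · rintro ⟨⟨_, τ, hτ, rfl⟩, h⟩
      obtain ⟨p, hp, h'⟩ := (key τ hτ).1 h
      exact ⟨p, hp, fun q hq => ⟨q, le_rfl, τ, Force.mono φ h' hq⟩⟩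
    · rintro ⟨p, hp, h⟩
      obtain ⟨l, hl, hlv⟩ := exists_list hv (bd φ)
      obtain ⟨q, hq, ⟨h1, h2⟩ | h1⟩ := hC.exw φ l hl
      · exact ⟨_, (key _ h2).2 ⟨q, hq, (force_congr φ (scons_agree hlv _) q).1 h1⟩⟩
      · obtain ⟨s, -, a, b⟩ := hC.filt.dir p hp q hq
        obtain ⟨r, hr, τ, hτ⟩ := h s a
        exact absurd ⟨τ, (force_congr φ (scons_agree hlv _) r).2 hτ⟩ (h1 r (hr.trans b))

theorem Core.val_pair (hC : Core N G) {a b : Nm P} (ha : a ∈ N) (hb : b ∈ N) :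
    val N G (pairN a b) = {val N G a, val N G b} := by
  ext z
  rw [mem_val, ZFSet.mem_pair]
  constructor
  · rintro ⟨i, -, -, rfl⟩
    cases i
    · exact Or.inr rfl
    · exact Or.inl rfl
  · rintro (rfl | rfl)
    · exact ⟨true, ha, hC.filt.top, rfl⟩
    · exact ⟨false, hb, hC.filt.top, rfl⟩

theorem Core.op_mem (hC : Core N G) {a b : Nm P} (ha : a ∈ N) (hb : b ∈ N) : opN a b ∈ N :=
  hC.pairm _ (hC.pairm _ ha _ ha) _ (hC.pairm _ ha _ hb)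

theorem Core.op_comp (hC : Core N G) {a b : Nm P} (h : opN a b ∈ N) : a ∈ N ∧ b ∈ N :=
  hC.comp _ _ (hC.comp _ _ h).2

theorem Core.val_op (hC : Core N G) {a b : Nm P} (ha : a ∈ N) (hb : b ∈ N) :
    val N G (opN a b) = ZFSet.pair (val N G a) (val N G b) := by
  rw [opN, hC.val_pair (hC.pairm _ ha _ ha) (hC.pairm _ ha _ hb), hC.val_pair ha ha,
    hC.val_pair ha hb, ZFSet.pair_eq_singleton]
  rfl

theorem Core.val_nat (hC : Core N G) (n : ℕ) : val N G (natN n) = nat n := by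
  induction n with
  | zero =>
    ext z
    rw [mem_val]
    constructor
    · rintro ⟨i, -⟩; exact i.elim
    · intro h; exact absurd h (ZFSet.notMem_empty _)
  | succ n ih =>
    ext z
    rw [nat, ZFSet.mem_insert_iff, ← ih, mem_val, mem_val]
    constructor
    · rintro ⟨i, h1, h2, rfl⟩
      cases i with
      | none => exact Or.inl rfl
      | some i => exact Or.inr ⟨i, h1, h2, rfl⟩
    · rintro (rfl | ⟨i, h1, h2, rfl⟩)
      · exact ⟨none, hC.natm n, hC.filt.top, rfl⟩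
      · exact ⟨some i, h1, h2, rfl⟩

theorem mem_omega {z : ZFSet.{0}} : z ∈ ZFSet.omega ↔ ∃ n, z = nat n := by
  have h : ∀ n, ZFSet.mk (PSet.ofNat n) = nat n := by
    intro n
    induction n with
    | zero => rfl
    | succ n ih => rw [nat, ← ih]; rfl
  constructor
  · intro hz
    induction z using Quotient.inductionOn with
    | _ z =>
    obtain ⟨n, hn⟩ := (ZFSet.mk_mem_iff.1 hz)
    exact ⟨n.down, (ZFSet.sound hn).trans (h _)⟩
  · rintro ⟨n, rfl⟩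
    induction n with
    | zero => exact ZFSet.omega_zero
    | succ n ih => exact ZFSet.omega_succ ih

theorem Core.val_omega (hC : Core N G) : val N G omegaN = ZFSet.omega := by
  ext z
  rw [mem_val, mem_omega]
  constructor
  · rintro ⟨n, -, -, rfl⟩
    exact ⟨n, hC.val_nat n⟩
  · rintro ⟨n, rfl⟩
    exact ⟨n, hC.natm n, hC.filt.top, (hC.val_nat n).symm⟩

omit [Preorder P] [OrderTop P] in
theorem ext_trans : ∀ x ∈ Ext N G, ∀ y ∈ x, y ∈ Ext N G := by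
  rintro _ ⟨τ, -, rfl⟩ y hy
  obtain ⟨i, h1, -, rfl⟩ := mem_val.1 hy
  exact ⟨_, h1, rfl⟩

omit [Preorder P] [OrderTop P] in
theorem exists_names (w : ℕ → Ext N G) :
    ∃ v : ℕ → Nm P, (∀ i, v i ∈ N) ∧ ∀ i, (w i : ZFSet.{0}) = val N G (v i) := by
  choose v h1 h2 using fun i => (w i).2
  exact ⟨v, h1, fun i => (h2 i).symm⟩

theorem Core.mem_val_sep (hC : Core N G) (φ : Fml) {v : ℕ → Nm P} {w : ℕ → Ext N G}
    (hv : ∀ i, v i ∈ N) (hw : ∀ i, (w i : ZFSet.{0}) = val N G (v i)) (τ : Nm P)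
    (z : Ext N G) : (z : ZFSet.{0}) ∈ val N G (sepN φ v τ) ↔
      (z : ZFSet.{0}) ∈ val N G τ ∧ Sat (Ext N G) (scons z w) φ := by
  have key : ∀ (σ : Nm P), σ ∈ N → (z : ZFSet.{0}) = val N G σ →
      (Sat (Ext N G) (scons z w) φ ↔ ∃ p ∈ G, Force (scons σ v) φ p) := by
    intro σ hσ hz
    refine hC.truth φ _ _ (scons_mem hv hσ) ?_
    intro i
    cases i with
    | zero => exact hz
    | succ i => exact hw i
  rw [mem_val, mem_val]
  constructor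
  · rintro ⟨⟨⟨i, p⟩, h1, h2⟩, h3, h4, h5⟩
    exact ⟨⟨i, h3, hC.filt.up p h4 _ h1, h5⟩, (key _ h3 h5).2 ⟨p, h4, h2⟩⟩
  · rintro ⟨⟨i, h1, h2, h3⟩, h4⟩
    obtain ⟨p, hp, h5⟩ := (key _ h1 h3).1 h4
    obtain ⟨r, hr, a, b⟩ := hC.filt.dir p hp _ h2
    exact ⟨⟨(i, r), b, Force.mono φ h5 a⟩, h1, hr, h3⟩

theorem Core.separation (hC : Core N G) (φ : Fml) (w : ℕ → Ext N G) (a : Ext N G) :
    ∃ b : Ext N G, ∀ z : Ext N G, (z : ZFSet.{0}) ∈ (b : ZFSet.{0}) ↔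
      (z : ZFSet.{0}) ∈ (a : ZFSet.{0}) ∧ Sat (Ext N G) (scons z w) φ := by
  obtain ⟨v, hv, hw⟩ := exists_names w
  obtain ⟨l, hl, hlv⟩ := exists_list hv (bd φ)
  obtain ⟨_, τ, hτ, rfl⟩ := a
  refine ⟨⟨_, _, hC.sep φ l τ hl hτ, rfl⟩, fun z => ?_⟩
  have := hC.mem_val_sep φ (v := lv l) (w := fun i => ⟨_, lv l i, hC.lv_mem hl i, rfl⟩)
    (hC.lv_mem hl) (fun _ => rfl) τ z
  refine this.trans (and_congr Iff.rfl (sat_congr φ (scons_agree (fun i hi => ?_) z)))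
  apply Subtype.ext
  rw [hw, ← hlv i hi]

theorem Core.collection (hC : Core N G) (φ : Fml) (w : ℕ → Ext N G) (a : Ext N G) :
    ∃ b : Ext N G, ∀ z : Ext N G, (z : ZFSet.{0}) ∈ (a : ZFSet.{0}) →
      (∃ y, Sat (Ext N G) (scons y (scons z w)) φ) →
      ∃ y : Ext N G, (y : ZFSet.{0}) ∈ (b : ZFSet.{0}) ∧
        Sat (Ext N G) (scons y (scons z w)) φ := by
  obtain ⟨v, hv, hw⟩ := exists_names w
  obtain ⟨l, hl, hlv⟩ := exists_list hv (bd φ)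
  obtain ⟨_, τ, hτ, rfl⟩ := a
  refine ⟨⟨_, _, hC.repl φ l τ hl hτ, rfl⟩, fun z hz ⟨y, hy⟩ => ?_⟩
  obtain ⟨i, h1, h2, h3⟩ := mem_val.1 hz
  have key : ∀ (y : Ext N G) (σ : Nm P), σ ∈ N → (y : ZFSet.{0}) = val N G σ →
      (Sat (Ext N G) (scons y (scons z w)) φ ↔
        ∃ p ∈ G, Force (scons σ (scons (τ.A i) (lv l))) φ p) := by
    intro y σ hσ hy
    have := hC.truth φ (scons σ (scons (τ.A i) v)) (scons y (scons z w))
      (scons_mem (scons_mem hv h1) hσ) (by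
        intro k
        rcases k with _ | _ | k
        · exact hy
        · exact h3
        · exact hw k)
    rw [this]
    refine exists_congr fun p => and_congr Iff.rfl ?_
    exact (force_congr φ (scons_agree (scons_agree hlv _) _) p).symm
  obtain ⟨q, hq, ⟨h4, h5⟩ | h4⟩ := hC.exw φ (τ.A i :: l) (by
    intro x hx
    rcases List.mem_cons.1 hx with rfl | hx
    · exact h1
    · exact hl x hx)
  · rw [lv_cons] at h4 h5
    refine ⟨⟨_, _, h5, rfl⟩, mem_val.2 ⟨(i, q), h5, hC.filt.top, rfl⟩, ?_⟩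
    exact (key _ _ h5 rfl).2 ⟨q, hq, h4⟩
  · exfalso
    rw [lv_cons] at h4
    obtain ⟨_, σ, hσ, rfl⟩ := y
    obtain ⟨p, hp, h5⟩ := (key _ σ hσ rfl).1 hy
    obtain ⟨r, -, a, b⟩ := hC.filt.dir p hp q hq
    exact h4 r b ⟨σ, Force.mono φ h5 a⟩

end Pool.Agent.H30Z.Forc
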