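import Pool.Agent.H30Z.Forc.Truth

/-! The generic extension is a countable transitive model of ZFC. -/

namespace Pool.Agent.H30Z.Forc

open CohenE ZFSet

variable {P : Type} [Preorder P] [OrderTop P] {N : Set (Nm P)} {G : Set P}

theorem ext_of_trans {M : Set ZFSet.{0}} (hM : ∀ x ∈ M, ∀ y ∈ x, y ∈ M) {a b : ZFSet.{0}}
    (ha : a ∈ M) (hb : ∀ y ∈ b, y ∈ M) (h : ∀ z : M, (z : ZFSet.{0}) ∈ a ↔ (z : ZFSet.{0}) ∈ b) :
    a = b := by
  ext z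
  exact ⟨fun hz => (h ⟨z, hM a ha z hz⟩).1 hz, fun hz => (h ⟨z, hb z hz⟩).2 hz⟩

theorem Core.union_ax (hC : Core N G) : ∀ x ∈ Ext N G, ZFSet.sUnion x ∈ Ext N G := by
  rintro _ ⟨τ, hτ, rfl⟩
  obtain ⟨b, hb⟩ := hC.separation (.ex (.and (.mem 0 2) (.mem 1 0)))
    (fun _ => ⟨_, τ, hτ, rfl⟩) ⟨_, _, hC.union τ hτ, rfl⟩
  have : (b : ZFSet.{0}) = ZFSet.sUnion (val N G τ) := by
    refine ext_of_trans ext_trans b.2 ?_ fun z => ?_
    · intro y hy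
      obtain ⟨x, hx, hy⟩ := ZFSet.mem_sUnion.1 hy
      exact ext_trans x (ext_trans _ ⟨τ, hτ, rfl⟩ x hx) y hy
    · rw [hb, ZFSet.mem_sUnion]
      constructor
      · rintro ⟨-, x, h1, h2⟩
        exact ⟨x, h1, h2⟩
      · rintro ⟨x, h1, h2⟩
        refine ⟨?_, ⟨x, ext_trans _ ⟨τ, hτ, rfl⟩ x h1⟩, h1, h2⟩
        obtain ⟨i, -, -, rfl⟩ := mem_val.1 h1
        obtain ⟨j, h3, -, h4⟩ := mem_val.1 h2
        exact mem_val.2 ⟨⟨i, j⟩, h3, hC.filt.top, h4⟩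
  rw [← this]; exact b.2

theorem Core.power_ax (hC : Core N G) : ∀ x ∈ Ext N G, ∃ p ∈ Ext N G, ∀ y ∈ Ext N G,
    y ∈ p ↔ y ⊆ x := by
  rintro _ ⟨τ, hτ, rfl⟩
  obtain ⟨b, hb⟩ := hC.separation (.neg (.ex (.and (.mem 0 1) (.neg (.mem 0 2)))))
    (fun _ => ⟨_, τ, hτ, rfl⟩) ⟨_, _, hC.pow τ hτ, rfl⟩
  refine ⟨b, b.2, fun y hy => ?_⟩
  rw [hb ⟨y, hy⟩]
  constructor
  · rintro ⟨-, h⟩ z hz
    by_contra hh
    exact h ⟨⟨z, ext_trans y hy z hz⟩, hz, hh⟩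
  · intro h
    refine ⟨?_, fun ⟨z, h1, h2⟩ => h2 (h h1)⟩
    obtain ⟨ρ, hρ, rfl⟩ := hy
    have hl : ∀ x ∈ [ρ], x ∈ N := by simpa using hρ
    have h1 := hC.sep (.mem 0 1) [ρ] τ hl hτ
    refine mem_val.2 ⟨_, h1, hC.filt.top, ?_⟩
    refine ext_of_trans ext_trans ⟨ρ, hρ, rfl⟩ (ext_trans _ ⟨_, h1, rfl⟩) fun z => ?_
    have := hC.mem_val_sep (.mem 0 1) (v := lv [ρ])
      (w := fun i => ⟨_, lv [ρ] i, hC.lv_mem hl i, rfl⟩) (hC.lv_mem hl) (fun _ => rfl) τ z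
    refine Iff.trans ?_ this.symm
    exact ⟨fun hz => ⟨h hz, hz⟩, fun hz => hz.2⟩

/-- swap the first two variables -/
def sw : ℕ → ℕ
  | 0 => 1
  | 1 => 0
  | n + 2 => n + 2

theorem sat_sw {M : Set ZFSet.{0}} (φ : Fml) (v : ℕ → M) (y z : M) :
    Sat M (scons y (scons z v)) (ren sw φ) ↔ Sat M (scons z (scons y v)) φ := by
  rw [sat_ren]
  have : (fun i => scons y (scons z v) (sw i)) = scons z (scons y v) := by
    funext i
    rcases i with _ | _ | i <;> rfl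
  rw [this]

theorem Core.replacement_ax (hC : Core N G) (φ : Fml) (v : ℕ → Ext N G) (a : Ext N G) :
    ∃ b : Ext N G, (∀ z : Ext N G, (z : ZFSet.{0}) ∈ (a : ZFSet.{0}) →
      ∃! w : Ext N G, Sat (Ext N G) (scons z (scons w v)) φ) →
    ∀ w : Ext N G, (w : ZFSet.{0}) ∈ (b : ZFSet.{0}) ↔
      ∃ z : Ext N G, (z : ZFSet.{0}) ∈ (a : ZFSet.{0}) ∧
        Sat (Ext N G) (scons z (scons w v)) φ := by
  obtain ⟨c, hc⟩ := hC.collection (ren sw φ) v a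
  -- variables: z = 0, w = 1, a = 2, v k = k + 3
  let ρ : ℕ → ℕ := fun i => match i with
    | 0 => 0
    | 1 => 1
    | n + 2 => n + 3
  obtain ⟨b, hb⟩ := hC.separation (.ex (.and (.mem 0 2) (ren ρ φ))) (scons a v) c
  have key : ∀ z w : Ext N G, Sat (Ext N G) (scons z (scons w (scons a v))) (ren ρ φ) ↔
      Sat (Ext N G) (scons z (scons w v)) φ := by
    intro z w
    rw [sat_ren]
    have : (fun i => scons z (scons w (scons a v)) (ρ i)) = scons z (scons w v) := by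
      funext i
      rcases i with _ | _ | i <;> rfl
    rw [this]
  refine ⟨b, fun hu w => ?_⟩
  rw [hb]
  constructor
  · rintro ⟨-, z, h1, h2⟩
    exact ⟨z, h1, (key z w).1 h2⟩
  · rintro ⟨z, h1, h2⟩
    refine ⟨?_, z, h1, (key z w).2 h2⟩
    obtain ⟨y, h3, h4⟩ := hc z h1 ⟨w, (sat_sw φ v w z).2 h2⟩
    rw [(hu z h1).unique h2 ((sat_sw φ v y z).1 h4)]
    exact h3

theorem Core.choice_ax (hC : Core N G) : ∀ a ∈ Ext N G, (∀ b ∈ a, b ≠ ∅) →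
    ∃ f ∈ Ext N G, ∀ b ∈ a, ∃! c, c ∈ b ∧ ZFSet.pair b c ∈ f := by
  rintro _ ⟨τ, hτ, rfl⟩ hne
  refine ⟨_, ⟨_, hC.choice τ hτ, rfl⟩, fun b hb => ?_⟩
  -- analysis of the elements of the choice name
  have anal : ∀ c, ZFSet.pair b c ∈ val N G (choiceN τ) → ∃ i k p, p ∈ G ∧ τ.A i ∈ N ∧
      (unionN τ).A k ∈ N ∧ First (unionN τ) (τ.A i) k p ∧ b = val N G (τ.A i) ∧
        c = val N G ((unionN τ).A k) := by
    intro c hc
    obtain ⟨⟨⟨i, k, p⟩, h1⟩, h2, h3, h4⟩ := mem_val.1 hc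
    obtain ⟨h5, h6⟩ := hC.op_comp h2
    have h7 := h4.trans (hC.val_op h5 h6)
    rw [ZFSet.pair_inj] at h7
    exact ⟨i, k, p, h3, h5, h6, h1, h7.1, h7.2⟩
  have notlt : ∀ i k p k', p ∈ G → τ.A i ∈ N → First (unionN τ) (τ.A i) k p →
      (unionN τ).A k' ∈ N → val N G ((unionN τ).A k') ∈ val N G (τ.A i) →
      ¬ WellOrderingRel k' k := by
    intro i k p k' hp hi hf hk' hm hlt
    obtain ⟨q, hq, h⟩ := (hC.mem_iff hk' hi).1 hm
    obtain ⟨r, -, h1, h2⟩ := hC.filt.dir p hp q hq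
    exact hf.2 k' hlt r h1 (h.mono h2)
  obtain ⟨i, h1, h2, rfl⟩ := mem_val.1 hb
  obtain ⟨q, hq, ⟨k, h3, h4⟩ | h3⟩ := hC.first _ h1 _ (hC.union τ hτ)
  · refine ⟨val N G ((unionN τ).A k), ⟨(hC.mem_iff h4 h1).2 ⟨q, hq, h3.1⟩, ?_⟩, ?_⟩
    · exact mem_val.2 ⟨⟨(i, k, q), h3⟩, hC.op_mem h1 h4, hq, (hC.val_op h1 h4).symm⟩
    · rintro c ⟨hc1, hc2⟩
      obtain ⟨i', k', p, hp, a1, a2, a3, a4, rfl⟩ := anal c hc2
      have n1 := notlt i k q k' hq h1 h3 a2 hc1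
      have n2 := notlt i' k' p k hp a1 a3 h4 (a4 ▸ (hC.mem_iff h4 h1).2 ⟨q, hq, h3.1⟩)
      rcases trichotomous_of WellOrderingRel k k' with h | h | h
      · exact absurd h n2
      · rw [h]
      · exact absurd h n1
  · exfalso
    obtain ⟨z, hz⟩ := (ZFSet.eq_empty_or_nonempty _).resolve_left (hne _ hb)
    obtain ⟨j, a1, a2, -⟩ := mem_val.1 hz
    obtain ⟨r, -, b1, b2⟩ := hC.filt.dir q hq _ a2
    exact h3 ⟨i, j⟩ r b1 (FMem.of_child (τ.A i) j b2)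

/-- **The forcing theorem**: the extension is a countable transitive model of ZFC. -/
theorem Core.ctm (hC : Core N G) (hN : N.Countable) : CTM (Ext N G) where
  countable := hN.image _
  trans := ext_trans
  pairing := by
    rintro _ ⟨a, ha, rfl⟩ _ ⟨b, hb, rfl⟩
    exact ⟨_, hC.pairm a ha b hb, hC.val_pair ha hb⟩
  union := hC.union_ax
  power := hC.power_ax
  infinity := ⟨ZFSet.omega, ⟨_, hC.omegam, hC.val_omega⟩, ZFSet.omega_zero,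
    fun _ => ZFSet.omega_succ⟩
  separation := hC.separation
  replacement := fun φ v a h => by
    obtain ⟨b, hb⟩ := hC.replacement_ax φ v a
    exact ⟨b, hb h⟩
  choice := hC.choice_ax

end Pool.Agent.H30Z.Forc
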